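import Mathlib

/-!
Section 0 of the proof of S13177: every dendron carries a letter system.
-/

set_option autoImplicit false

namespace Pool.Agent.Helper85.DT

open Set

variable {X : Type} [TopologicalSpace X]

/-- A side (c,U): the complement of c is the disjoint union of the open sets U, V, and w is not in U. -/
def Side (w c : X) (U V : Set X) : Prop :=
  IsOpen U ∧ IsOpen V ∧ Disjoint U V ∧ U ∪ V = {c}ᶜ ∧ w ∉ U

/-- The frozen separation hypothesis. -/
def Sepa (X : Type) [TopologicalSpace X] : Prop :=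
  ∀ x y : X, x ≠ y → ∃ z : X, z ≠ x ∧ z ≠ y ∧
        ∃ U V : Set X, IsOpen U ∧ IsOpen V ∧ Disjoint U V ∧ U ∪ V = {z}ᶜ ∧ x ∈ U ∧ y ∈ V

private lemma nmemL {c : X} {U V : Set X} (h : U ∪ V = {c}ᶜ) : c ∉ U := by
  intro hc
  have : c ∈ ({c}ᶜ : Set X) := h ▸ Or.inl hc
  exact this rfl

private lemma nmemR {c : X} {U V : Set X} (h : U ∪ V = {c}ᶜ) : c ∉ V := by
  intro hc
  have : c ∈ ({c}ᶜ : Set X) := h ▸ Or.inr hc
  exact this rfl

private lemma mem_or {c : X} {U V : Set X} (h : U ∪ V = {c}ᶜ) {x : X} (hx : x ≠ c) : x ∈ U ∨ x ∈ V := by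
  have : x ∈ ({c}ᶜ : Set X) := hx
  rw [← h] at this
  exact this

private lemma conn [PreconnectedSpace X] {c : X} {U V : Set X} (hU : IsOpen U) (hV : IsOpen V)
    (hd : Disjoint U V) (h : U ∪ V = {c}ᶜ) : IsPreconnected (insert c U) := by
  classical
  let f : X → X := V.piecewise (fun _ => c) id
  have hf : Continuous f := by
    apply Continuous.piecewise _ continuous_const continuous_id
    intro a ha
    have h1 : a ∈ closure V := ha.1
    have h2 : a ∉ V := by
      have := ha.2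
      rwa [hV.interior_eq] at this
    have h3 : a ∉ U := by
      intro haU
      have := mem_closure_iff.1 h1 U hU haU
      obtain ⟨y, hy1, hy2⟩ := this
      exact (Set.disjoint_left.1 hd) hy1 hy2
    by_contra hne
    have : a ≠ c := fun e => hne (by simp [e])
    rcases mem_or h this with h4 | h4
    · exact h3 h4
    · exact h2 h4
  have him : f '' univ = insert c U := by
    ext y
    constructor
    · rintro ⟨x, -, rfl⟩
      by_cases hx : x ∈ V
      · simp [f, Set.piecewise, hx]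
      · have : f x = x := by simp [f, Set.piecewise, hx]
        rw [this]
        by_cases hxc : x = c
        · left; exact hxc
        · rcases mem_or h hxc with h4 | h4
          · right; exact h4
          · exact absurd h4 hx
    · intro hy
      refine ⟨y, mem_univ _, ?_⟩
      rcases hy with rfl | hy
      · simp [f, Set.piecewise]
      · have : y ∉ V := fun hyV => (Set.disjoint_left.1 hd) hy hyV
        simp [f, Set.piecewise, this]
  rw [← him]
  exact isPreconnected_univ.image f hf.continuousOn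

/-- A preconnected set missing e lies in one of the two parts. -/
private lemma sub_of_conn {e : X} {W Z A : Set X} (hW : IsOpen W) (hZ : IsOpen Z)
    (hd : Disjoint W Z) (h : W ∪ Z = {e}ᶜ) (hA : IsPreconnected A) (he : e ∉ A) {x : X} (hx : x ∈ A)
    (hxW : x ∈ W) : A ⊆ W := by
  apply hA.subset_left_of_subset_union hW hZ hd
  · intro y hy
    rw [h]
    intro hye
    exact he (hye ▸ hy)
  · exact ⟨x, hx, hxW⟩

private lemma union_comm' {e : X} {W Z : Set X} (h : W ∪ Z = {e}ᶜ) : Z ∪ W = {e}ᶜ := by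
  rw [Set.union_comm]; exact h

/-- (S1) -/
lemma side_lam [PreconnectedSpace X] {w c c' : X} {U V U' V' : Set X} (h : Side w c U V) (h' : Side w c' U' V')
    (hc : c ≠ c') : U ⊆ U' ∨ U' ⊆ U ∨ Disjoint U U' := by
  obtain ⟨hU, hV, hd, hu, hw⟩ := h
  obtain ⟨hU', hV', hd', hu', hw'⟩ := h'
  have hcU := conn hU hV hd hu
  have hcV := conn hV hU hd.symm (union_comm' hu)
  rcases mem_or hu (Ne.symm hc) with h1 | h1
  · -- c' in U
    have hwm : w ∈ insert c V := by
      by_cases hwc : w = c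
      · left; exact hwc
      · rcases mem_or hu hwc with h2 | h2
        · exact absurd h2 hw
        · right; exact h2
    have hmiss : c' ∉ insert c V := by
      rintro (h2 | h2)
      · exact hc h2.symm
      · exact (Set.disjoint_left.1 hd) h1 h2
    have hwc' : w ≠ c' := fun e => hmiss (e ▸ hwm)
    have hwV' : w ∈ V' := by
      rcases mem_or hu' hwc' with h2 | h2
      · exact absurd h2 hw'
      · exact h2
    have hsub := sub_of_conn hV' hU' hd'.symm (union_comm' hu') hcV hmiss hwm hwV'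
    right; left
    intro y hy
    by_cases hyc : y = c
    · exfalso
      exact (Set.disjoint_left.1 hd') hy (hsub (Or.inl hyc))
    · rcases mem_or hu hyc with h2 | h2
      · exact h2
      · exfalso
        exact (Set.disjoint_left.1 hd') hy (hsub (Or.inr h2))
  · -- c' in V
    have hmiss : c' ∉ insert c U := by
      rintro (h2 | h2)
      · exact hc h2.symm
      · exact (Set.disjoint_left.1 hd) h2 h1
    rcases mem_or hu' hc with h2 | h2
    · left
      have := sub_of_conn hU' hV' hd' hu' hcU hmiss (mem_insert _ _) h2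
      exact fun y hy => this (Or.inr hy)
    · right; right
      have := sub_of_conn hV' hU' hd'.symm (union_comm' hu') hcU hmiss (mem_insert _ _) h2
      rw [Set.disjoint_left]
      intro y hy hy'
      exact (Set.disjoint_left.1 hd') hy' (this (Or.inr hy))

/-- (S2) for points -/
lemma side_between [PreconnectedSpace X] (hX : Sepa X) {w c' : X} {U' V' : Set X} (h' : Side w c' U' V')
    {x : X} (hx : x ∈ U') : ∃ (e : X) (W Z : Set X), Side w e W Z ∧ x ∈ W ∧ c' ∈ Z ∧ insert e W ⊆ U' ∧ e ≠ x := by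
  obtain ⟨hU', hV', hd', hu', hw'⟩ := h'
  have hxc : x ≠ c' := fun e => nmemL hu' (e ▸ hx)
  obtain ⟨e, hex, hec, W, Z, hW, hZ, hd, hu, hxW, hcZ⟩ := hX x c' hxc
  have hcU' := conn hU' hV' hd' hu'
  have hcV' := conn hV' hU' hd'.symm (union_comm' hu')
  have heU : e ∈ U' := by
    rcases mem_or hu' hec with h1 | h1
    · exact h1
    · exfalso
      have hmiss : e ∉ insert c' U' := by
        rintro (h2 | h2)
        · exact hec h2
        · exact (Set.disjoint_left.1 hd') h2 h1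
      have := sub_of_conn hW hZ hd hu hcU' hmiss (Or.inr hx) hxW
      exact (Set.disjoint_left.1 hd) (this (mem_insert _ _)) hcZ
  have hmiss : e ∉ insert c' V' := by
    rintro (h2 | h2)
    · exact hec h2
    · exact (Set.disjoint_left.1 hd') heU h2
  have hsub := sub_of_conn hZ hW hd.symm (union_comm' hu) hcV' hmiss (mem_insert _ _) hcZ
  have hwm : w ∈ insert c' V' := by
    by_cases hwc : w = c'
    · left; exact hwc
    · rcases mem_or hu' hwc with h2 | h2
      · exact absurd h2 hw'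
      · right; exact h2
  refine ⟨e, W, Z, ⟨hW, hZ, hd, hu, fun hwW => (Set.disjoint_left.1 hd) hwW (hsub hwm)⟩, hxW, hcZ, ?_, hex⟩
  rintro y (rfl | hy)
  · exact heU
  · by_cases hyc : y = c'
    · exfalso
      exact (Set.disjoint_left.1 hd) hy (hsub (Or.inl hyc))
    · rcases mem_or hu' hyc with h2 | h2
      · exact h2
      · exfalso
        exact (Set.disjoint_left.1 hd) hy (hsub (Or.inr h2))

/-- (S2) -/
lemma side_between2 [PreconnectedSpace X] (hX : Sepa X) {w c c' : X} {U V U' V' : Set X} (h : Side w c U V)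
    (h' : Side w c' U' V') (hs : insert c U ⊆ U') :
    ∃ (e : X) (W Z : Set X), Side w e W Z ∧ insert c U ⊆ W ∧ insert e W ⊆ U' := by
  obtain ⟨e, W, Z, hS, hcW, hcZ, hsub, hec⟩ := side_between hX h' (hs (mem_insert c U))
  refine ⟨e, W, Z, hS, ?_, hsub⟩
  obtain ⟨hU, hV, hd, hu, hw⟩ := h
  obtain ⟨hU', hV', hd', hu', hw'⟩ := h'
  obtain ⟨hW, hZ, hd2, hu2, hw2⟩ := hS
  have hcU := conn hU hV hd hu
  have hcV := conn hV hU hd.symm (union_comm' hu)
  have hc'V : c' ∈ insert c V := by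
    by_cases h1 : c' = c
    · left; exact h1
    · rcases mem_or hu h1 with h2 | h2
      · exact absurd (hs (Or.inr h2)) (nmemL hu')
      · right; exact h2
  have heU : e ∉ insert c U := by
    rintro (h1 | h1)
    · exact hec h1
    · have hmiss : e ∉ insert c V := by
        rintro (h2 | h2)
        · exact hec h2
        · exact (Set.disjoint_left.1 hd) h1 h2
      have := sub_of_conn hW hZ hd2 hu2 hcV hmiss (mem_insert _ _) hcW
      exact (Set.disjoint_left.1 hd2) (this hc'V) hcZ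
  exact sub_of_conn hW hZ hd2 hu2 hcU heU (mem_insert _ _) hcW

/-- A rational family of nested sides. -/
def Fam (w : X) (c : ℚ → X) (U V : ℚ → Set X) : Prop :=
  (∀ q, Side w (c q) (U q) (V q)) ∧ ∀ q q', q < q' → insert (c q) (U q) ⊆ U q'

/-- The type of sides, with its strict order. -/
structure SideT (w : X) where
  c : X
  U : Set X
  V : Set X
  side : Side w c U V

instance sideOrder (w : X) : PartialOrder (SideT w) where
  le a b := a = b ∨ insert a.c a.U ⊆ b.U
  le_refl a := Or.inl rfl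
  le_trans a b d := by
    rintro (rfl | h1) (rfl | h2)
    · exact Or.inl rfl
    · exact Or.inr h2
    · exact Or.inr h1
    · exact Or.inr (h1.trans ((subset_insert _ _).trans h2))
  le_antisymm a b := by
    rintro (rfl | h1) h2
    · rfl
    · rcases h2 with h2 | h2
      · exact h2.symm
      · exfalso
        have : a.c ∈ a.U := h2 (Or.inr (h1 (mem_insert _ _)))
        exact nmemL a.side.2.2.2.1 this

private lemma lt_iff' {w : X} (a b : SideT w) : a < b ↔ insert a.c a.U ⊆ b.U := by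
  constructor
  · intro h
    rcases h.le with h1 | h1
    · exact absurd h1 h.ne
    · exact h1
  · intro h
    refine lt_of_le_of_ne (Or.inr h) ?_
    rintro rfl
    exact nmemL a.side.2.2.2.1 (h (mem_insert _ _))

/-- A rational family between two nested sides. -/
lemma exists_fam [PreconnectedSpace X] (hX : Sepa X) {w c₀ c₁ : X} {U₀ V₀ U₁ V₁ : Set X}
    (h₀ : Side w c₀ U₀ V₀) (h₁ : Side w c₁ U₁ V₁) (hs : insert c₀ U₀ ⊆ U₁) :
    ∃ (c : ℚ → X) (U V : ℚ → Set X), Fam w c U V ∧ ∀ q, U₀ ⊆ U q ∧ U q ⊆ U₁ := by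
  classical
  let a₀ : SideT w := ⟨c₀, U₀, V₀, h₀⟩
  let a₁ : SideT w := ⟨c₁, U₁, V₁, h₁⟩
  have h01 : a₀ < a₁ := (lt_iff' a₀ a₁).2 hs
  have hdense : ∀ a b : SideT w, a < b → ∃ d, a < d ∧ d < b := by
    intro a b hab
    obtain ⟨e, W, Z, hS, h1, h2⟩ := side_between2 hX a.side b.side ((lt_iff' a b).1 hab)
    exact ⟨⟨e, W, Z, hS⟩, (lt_iff' _ _).2 h1, (lt_iff' _ _).2 h2⟩
  -- a maximal chain containing a₀, a₁
  have hch : IsChain (· ≤ ·) ({a₀, a₁} : Set (SideT w)) := by
    apply IsChain.pair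
    exact h01.le
  obtain ⟨C, hC, hsub⟩ := hch.exists_maxChain
  have h0C : a₀ ∈ C := hsub (by simp)
  have h1C : a₁ ∈ C := hsub (by simp)
  have htot : ∀ a ∈ C, ∀ b ∈ C, a ≤ b ∨ b ≤ a := by
    intro a ha b hb
    by_cases hab : a = b
    · left; exact hab.le
    · exact hC.1 ha hb hab
  have hCd : ∀ a ∈ C, ∀ b ∈ C, a < b → ∃ d ∈ C, a < d ∧ d < b := by
    intro a ha b hb hab
    by_contra hcon
    push Not at hcon
    obtain ⟨d, had, hdb⟩ := hdense a b hab
    have hins : IsChain (· ≤ ·) (insert d C) := by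
      apply hC.1.insert
      intro x hx hne
      rcases htot x hx a ha with h1 | h1
      · right; exact h1.trans had.le
      · rcases htot b hb x hx with h2 | h2
        · left; exact hdb.le.trans h2
        · -- a ≤ x ≤ b
          rcases h1.eq_or_lt with h3 | h3
          · right; rw [← h3]; exact had.le
          · have h4 := hcon x hx h3
            rcases h2.eq_or_lt with h5 | h5
            · left; rw [h5]; exact hdb.le
            · exact absurd h5 h4
    have := hC.2 hins (subset_insert _ _)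
    have hdC : d ∈ C := this ▸ mem_insert _ _
    exact hcon d hdC had hdb
  -- linear order on the interval
  let β : Type := {a : SideT w // a ∈ C ∧ a₀ ≤ a ∧ a ≤ a₁}
  letI : LinearOrder β :=
    { (inferInstance : PartialOrder β) with
      le_total := fun a b => htot a.1 a.2.1 b.1 b.2.1
      toDecidableLE := Classical.decRel _
      toDecidableEq := Classical.decEq _ }
  haveI : DenselyOrdered β := by
    constructor
    intro a b hab
    obtain ⟨d, hd, h1, h2⟩ := hCd a.1 a.2.1 b.1 b.2.1 hab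
    exact ⟨⟨d, hd, a.2.2.1.trans h1.le, h2.le.trans b.2.2.2⟩, h1, h2⟩
  haveI : Nontrivial β := by
    refine ⟨⟨⟨a₀, h0C, le_rfl, h01.le⟩, ⟨a₁, h1C, h01.le, le_rfl⟩, ?_⟩⟩
    intro h
    exact h01.ne (congrArg Subtype.val h)
  obtain ⟨φ⟩ := Order.embedding_from_countable_to_dense ℚ β
  refine ⟨fun q => (φ q).1.c, fun q => (φ q).1.U, fun q => (φ q).1.V, ⟨fun q => (φ q).1.side, ?_⟩, ?_⟩
  · intro q q' hq
    have : φ q < φ q' := φ.strictMono hq
    exact (lt_iff' _ _).1 this
  · intro q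
    constructor
    · rcases (φ q).2.2.1 with h | h
      · have : (φ q).1.U = U₀ := by rw [← h]
        exact this.ge
      · exact (subset_insert _ _).trans h
    · rcases (φ q).2.2.2 with h | h
      · have : (φ q).1.U = U₁ := by rw [h]
        exact this.le
      · exact (subset_insert _ _).trans h

/-- The function of a family. -/
noncomputable def fn (U : ℚ → Set X) (x : X) : ℝ :=
  sInf ({1} ∪ {y : ℝ | ∃ q : ℚ, 0 < q ∧ q < 1 ∧ (q : ℝ) = y ∧ x ∈ U q})

private lemma fn_bdd (U : ℚ → Set X) (x : X) :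
    BddBelow ({1} ∪ {y : ℝ | ∃ q : ℚ, 0 < q ∧ q < 1 ∧ (q : ℝ) = y ∧ x ∈ U q}) := by
  refine ⟨0, ?_⟩
  rintro y (hy | ⟨q, hq, -, rfl, -⟩)
  · rw [hy]; norm_num
  · exact_mod_cast hq.le

lemma fn_le_one (U : ℚ → Set X) (x : X) : fn U x ≤ 1 :=
  csInf_le (fn_bdd U x) (Or.inl rfl)

lemma le_fn (U : ℚ → Set X) (x : X) {a : ℝ} (ha : a ≤ 1)
    (h : ∀ q : ℚ, 0 < q → q < 1 → x ∈ U q → a ≤ q) : a ≤ fn U x := by
  unfold fn
  refine le_csInf ⟨1, Or.inl rfl⟩ ?_
  rintro y (hy | ⟨q, h0, h1, rfl, hx⟩)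
  · rw [hy]; exact ha
  · exact h q h0 h1 hx

lemma fn_nonneg (U : ℚ → Set X) (x : X) : 0 ≤ fn U x :=
  le_fn U x zero_le_one fun q hq _ _ => by exact_mod_cast hq.le

lemma fn_le (U : ℚ → Set X) (x : X) {q : ℚ} (h0 : 0 < q) (h1 : q < 1) (hx : x ∈ U q) : fn U x ≤ q :=
  csInf_le (fn_bdd U x) (Or.inr ⟨q, h0, h1, rfl, hx⟩)

lemma fn_lt_iff (U : ℚ → Set X) (x : X) {s : ℝ} (hs : s ≤ 1) :
    fn U x < s ↔ ∃ q : ℚ, 0 < q ∧ q < 1 ∧ (q : ℝ) < s ∧ x ∈ U q := by
  constructor
  · intro h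
    obtain ⟨y, hy, hys⟩ := (csInf_lt_iff (fn_bdd U x) ⟨1, Or.inl rfl⟩).1 h
    rcases hy with hy | ⟨q, h0, h1, rfl, hx⟩
    · rw [hy] at hys; exact absurd hys (not_lt.2 hs)
    · exact ⟨q, h0, h1, hys, hx⟩
  · rintro ⟨q, h0, h1, hqs, hx⟩
    exact (fn_le U x h0 h1 hx).trans_lt hqs

section
variable {w : X} {c : ℚ → X} {U V : ℚ → Set X}

private lemma fam_mono (h : Fam w c U V) {q q' : ℚ} (hq : q ≤ q') : U q ⊆ U q' := by
  rcases hq.eq_or_lt with rfl | h1
  · exact le_rfl
  · exact (subset_insert _ _).trans (h.2 q q' h1)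

private lemma closed_ins (h : Fam w c U V) (q : ℚ) : IsClosed (insert (c q) (U q)) := by
  have : insert (c q) (U q) = (V q)ᶜ := by
    obtain ⟨-, -, hd, hu, -⟩ := h.1 q
    ext y
    constructor
    · rintro (rfl | hy) hV
      · exact nmemR hu hV
      · exact (Set.disjoint_left.1 hd) hy hV
    · intro hy
      by_cases hyc : y = c q
      · left; exact hyc
      · rcases mem_or hu hyc with h2 | h2
        · right; exact h2
        · exact absurd h2 hy
  rw [this]
  exact (h.1 q).2.1.isClosed_compl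

lemma lt_fn_iff (h : Fam w c U V) (x : X) {s : ℝ} (hs0 : 0 ≤ s) (hs : s < 1) :
    s < fn U x ↔ ∃ q : ℚ, 0 < q ∧ q < 1 ∧ s < q ∧ x ∉ insert (c q) (U q) := by
  constructor
  · intro hlt
    obtain ⟨q2, h2a, h2b⟩ := exists_rat_btwn hlt
    obtain ⟨q1, h1a, h1b⟩ := exists_rat_btwn h2a
    have hq2 : (q2 : ℝ) < 1 := h2b.trans_le (fn_le_one U x)
    have h12 : q1 < q2 := by exact_mod_cast h1b
    have h21 : q2 < 1 := by exact_mod_cast hq2
    have h10 : 0 < q1 := by exact_mod_cast hs0.trans_lt h1a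
    refine ⟨q1, h10, h12.trans h21, h1a, ?_⟩
    intro hx
    have hx2 : x ∈ U q2 := h.2 q1 q2 h12 hx
    exact absurd (fn_le U x (h10.trans h12) h21 hx2) (not_le.2 h2b)
  · rintro ⟨q, h0, h1, hsq, hx⟩
    refine lt_of_lt_of_le hsq ?_
    refine le_fn U x (by exact_mod_cast h1.le) fun q' h0' h1' hx' => ?_
    by_contra hcon
    have : q' < q := by
      have := not_le.1 hcon
      exact_mod_cast this
    exact hx (Or.inr (fam_mono h this.le hx'))

lemma fn_cont (h : Fam w c U V) : Continuous (fn U) := by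
  rw [OrderTopology.continuous_iff]
  intro a
  constructor
  · -- preimage of Ioi a
    by_cases ha0 : a < 0
    · have : fn U ⁻¹' Ioi a = univ := by
        ext x; simp only [mem_preimage, mem_Ioi, mem_univ, iff_true]
        exact ha0.trans_le (fn_nonneg U x)
      rw [this]; exact isOpen_univ
    · push Not at ha0
      by_cases ha1 : a < 1
      · have : fn U ⁻¹' Ioi a = ⋃ q : {q : ℚ // 0 < q ∧ q < 1 ∧ a < q}, (insert (c q) (U q))ᶜ := by
          ext x
          simp only [mem_preimage, mem_Ioi, mem_iUnion, lt_fn_iff h x ha0 ha1]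
          constructor
          · rintro ⟨q, h0, h1, h2, hx⟩
            exact ⟨⟨q, h0, h1, h2⟩, hx⟩
          · rintro ⟨⟨q, h0, h1, h2⟩, hx⟩
            exact ⟨q, h0, h1, h2, hx⟩
        rw [this]
        exact isOpen_iUnion fun q => (closed_ins h q).isOpen_compl
      · have : fn U ⁻¹' Ioi a = ∅ := by
          ext x; simp only [mem_preimage, mem_Ioi, mem_empty_iff_false, iff_false, not_lt]
          exact (fn_le_one U x).trans (not_lt.1 ha1)
        rw [this]; exact isOpen_empty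
  · by_cases ha1 : a ≤ 1
    · have : fn U ⁻¹' Iio a = ⋃ q : {q : ℚ // 0 < q ∧ q < 1 ∧ (q : ℝ) < a}, U q := by
        ext x
        simp only [mem_preimage, mem_Iio, mem_iUnion, fn_lt_iff U x ha1]
        constructor
        · rintro ⟨q, h0, h1, h2, hx⟩
          exact ⟨⟨q, h0, h1, h2⟩, hx⟩
        · rintro ⟨⟨q, h0, h1, h2⟩, hx⟩
          exact ⟨q, h0, h1, h2, hx⟩
      rw [this]
      exact isOpen_iUnion fun q => (h.1 q).1
    · have : fn U ⁻¹' Iio a = univ := by
        ext x; simp only [mem_preimage, mem_Iio, mem_univ, iff_true]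
        exact (fn_le_one U x).trans_lt (not_le.1 ha1)
      rw [this]; exact isOpen_univ

lemma fn_top (h : Fam w c U V) {x : X} (hx : ∀ q, x ∉ U q) : fn U x = 1 := by
  apply le_antisymm (fn_le_one U x)
  exact le_fn U x le_rfl fun q _ _ hx' => absurd hx' (hx q)

lemma fn_zero {x : X} (hx : ∀ q, x ∈ U q) : fn U x = 0 := by
  apply le_antisymm _ (fn_nonneg U x)
  by_contra hcon
  push Not at hcon
  obtain ⟨q, hq1, hq2⟩ := exists_rat_btwn hcon
  have h1 : (q : ℝ) < 1 := hq2.trans_le (fn_le_one U x)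
  exact absurd (fn_le U x (by exact_mod_cast hq1) (by exact_mod_cast h1) (hx q)) (not_le.2 hq2)

end

lemma fn_lam [PreconnectedSpace X] {w : X} {c c' : ℚ → X} {U V U' V' : ℚ → Set X} (h : Fam w c U V)
    (h' : Fam w c' U' V') (s t : ℝ) :
    {x | fn U x < s} ⊆ {x | fn U' x < t} ∨ {x | fn U' x < t} ⊆ {x | fn U x < s} ∨
      Disjoint {x | fn U x < s} {x | fn U' x < t} := by
  by_cases hs : 1 < s
  · right; left
    intro x _
    exact (fn_le_one U x).trans_lt hs
  by_cases ht : 1 < t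
  · left
    intro x _
    exact (fn_le_one U' x).trans_lt ht
  push Not at hs ht
  by_contra hcon
  push Not at hcon
  obtain ⟨h1, h2, h3⟩ := hcon
  obtain ⟨a, ha1, ha2⟩ := Set.not_subset.1 h1
  obtain ⟨b, hb1, hb2⟩ := Set.not_subset.1 h2
  obtain ⟨z, hz1, hz2⟩ := Set.not_disjoint_iff.1 h3
  simp only [mem_setOf_eq] at ha1 ha2 hb1 hb2 hz1 hz2
  obtain ⟨qa, qa0, qa1, qas, haq⟩ := (fn_lt_iff U a hs).1 ha1
  obtain ⟨qz, qz0, qz1, qzs, hzq⟩ := (fn_lt_iff U z hs).1 hz1
  obtain ⟨qb, qb0, qb1, qbt, hbq⟩ := (fn_lt_iff U' b ht).1 hb1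
  obtain ⟨qy, qy0, qy1, qyt, hyq⟩ := (fn_lt_iff U' z ht).1 hz2
  -- common indices
  obtain ⟨q, q0, q1, qs, hqa, hqz⟩ : ∃ q : ℚ, 0 < q ∧ q < 1 ∧ (q : ℝ) < s ∧ a ∈ U q ∧ z ∈ U q := by
    rcases le_total qa qz with hle | hle
    · exact ⟨qz, qz0, qz1, qzs, fam_mono h hle haq, hzq⟩
    · exact ⟨qa, qa0, qa1, qas, haq, fam_mono h hle hzq⟩
  obtain ⟨p, p0, p1, pt, hpb, hpz⟩ : ∃ p : ℚ, 0 < p ∧ p < 1 ∧ (p : ℝ) < t ∧ b ∈ U' p ∧ z ∈ U' p := by
    rcases le_total qb qy with hle | hle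
    · exact ⟨qy, qy0, qy1, qyt, fam_mono h' hle hbq, hyq⟩
    · exact ⟨qb, qb0, qb1, qbt, hbq, fam_mono h' hle hyq⟩
  have hap : a ∉ U' p := fun hh => ha2 ((fn_lt_iff U' a ht).2 ⟨p, p0, p1, pt, hh⟩)
  obtain ⟨r, hr1, hr2⟩ := exists_rat_btwn qs
  have hqr : q < r := by exact_mod_cast hr1
  have hr1' : r < 1 := by exact_mod_cast hr2.trans_le hs
  -- general contradiction
  have key : ∀ m : ℚ, 0 < m → m < 1 → (m : ℝ) < s → a ∈ U m → z ∈ U m → c m ≠ c' p → False := by
    intro m m0 m1 ms ham hzm hne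
    have hbm : b ∉ U m := fun hh => hb2 ((fn_lt_iff U b hs).2 ⟨m, m0, m1, ms, hh⟩)
    rcases side_lam (h.1 m) (h'.1 p) hne with h4 | h4 | h4
    · exact hap (h4 ham)
    · exact hbm (h4 hpb)
    · exact (Set.disjoint_left.1 h4) hzm hpz
  by_cases hcq : c q = c' p
  · have hne : c r ≠ c' p := by
      intro hcr
      have h5 : c q ∈ U r := h.2 q r hqr (mem_insert _ _)
      have h6 : c r ∉ U r := nmemL (h.1 r).2.2.2.1
      rw [hcr, ← hcq] at h6
      exact h6 h5
    exact key r (q0.trans hqr) hr1' hr2 (fam_mono h hqr.le hqa) (fam_mono h hqr.le hqz) hne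
  · exact key q q0 q1 qs hqa hqz hcq

/-- For two distinct points there is a family separating them. -/
lemma exists_fam_sep [PreconnectedSpace X] (hX : Sepa X) (w : X) {x y : X} (hxy : x ≠ y) :
    ∃ (c : ℚ → X) (U V : ℚ → Set X), Fam w c U V ∧
      ((∀ q, x ∈ U q) ∧ (∀ q, y ∉ U q) ∨ (∀ q, y ∈ U q) ∧ (∀ q, x ∉ U q)) := by
  have main : ∀ {x y z : X} {U V : Set X}, IsOpen U → IsOpen V → Disjoint U V → U ∪ V = {z}ᶜ → x ∈ U → y ∈ V →
      w ∉ U → ∃ (c : ℚ → X) (U V : ℚ → Set X), Fam w c U V ∧ (∀ q, x ∈ U q) ∧ (∀ q, y ∉ U q) := by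
    intro x y z U V hU hV hd hu hx hy hw
    have hS : Side w z U V := ⟨hU, hV, hd, hu, hw⟩
    obtain ⟨e, W, Z, hS', hxW, -, hsub, -⟩ := side_between hX hS hx
    obtain ⟨c, U', V', hF, hq⟩ := exists_fam hX hS' hS hsub
    refine ⟨c, U', V', hF, fun q => (hq q).1 hxW, fun q hyq => ?_⟩
    exact (Set.disjoint_left.1 hd) ((hq q).2 hyq) hy
  obtain ⟨z, -, -, U, V, hU, hV, hd, hu, hx, hy⟩ := hX x y hxy
  by_cases hw : w ∈ U
  · have hw' : w ∉ V := fun h => (Set.disjoint_left.1 hd) hw h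
    obtain ⟨c, U', V', hF, h1, h2⟩ := main hV hU hd.symm (union_comm' hu) hy hx hw'
    exact ⟨c, U', V', hF, Or.inr ⟨h1, h2⟩⟩
  · obtain ⟨c, U', V', hF, h1, h2⟩ := main hU hV hd hu hx hy hw
    exact ⟨c, U', V', hF, Or.inl ⟨h1, h2⟩⟩

/-- Section 0: every dendron carries a letter system. -/
theorem letters (X : Type) [TopologicalSpace X] [ConnectedSpace X] (hX : Sepa X) :
    ∃ (I : Type) (r : I → X → ℝ), (∀ i, Continuous (r i)) ∧ (∀ i x, 0 ≤ r i x ∧ r i x ≤ 1) ∧
      (∀ i j (s t : ℝ), {x | r i x < s} ⊆ {x | r j x < t} ∨ {x | r j x < t} ⊆ {x | r i x < s} ∨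
        Disjoint {x | r i x < s} {x | r j x < t}) ∧
      (∀ x y, x ≠ y → ∃ i, (r i x = 0 ∧ r i y = 1) ∨ (r i x = 1 ∧ r i y = 0)) ∧
      (∃ w, ∀ i, r i w = 1) ∧ (∀ i, ∃ x, r i x = 0) := by
  classical
  obtain ⟨w⟩ : Nonempty X := inferInstance
  let I : Type := {p : X × X // p.1 ≠ p.2}
  have hch : ∀ i : I, ∃ (c : ℚ → X) (U V : ℚ → Set X), Fam w c U V ∧
      ((∀ q, i.1.1 ∈ U q) ∧ (∀ q, i.1.2 ∉ U q) ∨ (∀ q, i.1.2 ∈ U q) ∧ (∀ q, i.1.1 ∉ U q)) :=
    fun i => exists_fam_sep hX w i.2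
  choose c U V hF hsep using hch
  refine ⟨I, fun i => fn (U i), fun i => fn_cont (hF i), fun i x => ⟨fn_nonneg _ _, fn_le_one _ _⟩,
    fun i j s t => fn_lam (hF i) (hF j) s t, ?_, ⟨w, fun i => fn_top (hF i) fun q => ((hF i).1 q).2.2.2.2⟩, ?_⟩
  · intro x y hxy
    refine ⟨⟨(x, y), hxy⟩, ?_⟩
    rcases hsep ⟨(x, y), hxy⟩ with ⟨h1, h2⟩ | ⟨h1, h2⟩
    · left; exact ⟨fn_zero h1, fn_top (hF _) h2⟩
    · right; exact ⟨fn_top (hF _) h2, fn_zero h1⟩
  · intro i
    rcases hsep i with ⟨h1, h2⟩ | ⟨h1, h2⟩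
    · exact ⟨i.1.1, fn_zero h1⟩
    · exact ⟨i.1.2, fn_zero h1⟩

end Pool.Agent.Helper85.DT
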