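import Mathlib

/-!
Section 1 of the proof of S13177: chains of a letter system.
-/

set_option autoImplicit false
set_option linter.unusedSectionVars false

namespace Pool.Agent.Helper85.DT

open Set

/-- The laminar property of a system of functions. -/
def Lami {X I : Type} (r : I → X → ℝ) : Prop :=
  ∀ i j (s t : ℝ), {x | r i x < s} ⊆ {x | r j x < t} ∨ {x | r j x < t} ⊆ {x | r i x < s} ∨
    Disjoint {x | r i x < s} {x | r j x < t}

/-- The preorder of a finite set of letters. -/
def leF {X I : Type} (r : I → X → ℝ) (F : Finset I) (x y : X) : Prop := ∀ i ∈ F, r i x ≤ r i y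

section
variable {X I : Type} {r : I → X → ℝ} {F : Finset I}

lemma leF_refl (x : X) : leF r F x x := fun _ _ => le_rfl

lemma leF_trans {x y z : X} (h : leF r F x y) (h' : leF r F y z) : leF r F x z :=
  fun i hi => (h i hi).trans (h' i hi)

/-- (F1) -/
lemma F1 (hl : Lami r) {x y z : X} (hy : leF r F x y) (hz : leF r F x z) : leF r F y z ∨ leF r F z y := by
  by_contra hcon
  push Not at hcon
  obtain ⟨h1, h2⟩ := hcon
  unfold leF at h1 h2
  push Not at h1 h2
  obtain ⟨i, hi, hi'⟩ := h1
  obtain ⟨j, hj, hj'⟩ := h2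
  rcases hl i j (r i y) (r j z) with h | h | h
  · have : r j z < r j z := h hi'
    exact lt_irrefl _ this
  · have : r i y < r i y := h hj'
    exact lt_irrefl _ this
  · have h3 : x ∈ {x | r i x < r i y} := (hz i hi).trans_lt hi'
    have h4 : x ∈ {x | r j x < r j z} := (hy j hj).trans_lt hj'
    exact (Set.disjoint_left.1 h) h3 h4

/-- (F3) -/
lemma F3 (hl : Lami r) (hF : F.Nonempty) (x : X) :
    ∃ j ∈ F, ∀ z, r j z ≤ r j x → leF r F z x := by
  classical
  -- the sets are nested
  have hnest : ∀ i j, (∀ z, r i z ≤ r i x → r j z ≤ r j x) ∨ (∀ z, r j z ≤ r j x → r i z ≤ r i x) := by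
    intro i j
    by_contra hcon
    push Not at hcon
    obtain ⟨⟨a, ha1, ha2⟩, ⟨b, hb1, hb2⟩⟩ := hcon
    rcases hl i j (r i b) (r j a) with h | h | h
    · have h1 : r j a < r j a := h (show r i a < r i b from ha1.trans_lt hb2)
      exact lt_irrefl _ h1
    · have h1 : r i b < r i b := h (show r j b < r j a from hb1.trans_lt ha2)
      exact lt_irrefl _ h1
    · exact (Set.disjoint_left.1 h) (show x ∈ {x | r i x < r i b} from hb2) (show x ∈ {x | r j x < r j a} from ha2)
  induction F using Finset.induction_on with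
  | empty => exact absurd hF (by simp)
  | insert i F hi ih =>
    by_cases hFe : F.Nonempty
    · obtain ⟨j, hj, hj'⟩ := ih hFe
      rcases hnest i j with h | h
      · refine ⟨i, Finset.mem_insert_self _ _, fun z hz => ?_⟩
        intro k hk
        rcases Finset.mem_insert.1 hk with rfl | hk
        · exact hz
        · exact hj' z (h z hz) k hk
      · refine ⟨j, Finset.mem_insert_of_mem hj, fun z hz => ?_⟩
        intro k hk
        rcases Finset.mem_insert.1 hk with rfl | hk
        · exact h z hz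
        · exact hj' z hz k hk
    · refine ⟨i, Finset.mem_insert_self _ _, fun z hz => ?_⟩
      intro k hk
      rcases Finset.mem_insert.1 hk with rfl | hk
      · exact hz
      · exact absurd ⟨k, hk⟩ hFe

end

section
variable {X I : Type} [TopologicalSpace X] {r : I → X → ℝ} {F : Finset I}

/-- A boundary point of a sublevel set. -/
lemma exists_bdry [PreconnectedSpace X] (hc : ∀ i, Continuous (r i)) (i : I) (s : ℝ) {x x' : X}
    (hx : r i x < s) (hx' : s ≤ r i x') : ∃ z, z ∈ closure {y | r i y < s} ∧ s ≤ r i z := by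
  have hopen : IsOpen {y | r i y < s} := isOpen_lt (hc i) continuous_const
  by_contra hcon
  push Not at hcon
  have hcl : IsClosed {y | r i y < s} := by
    apply isClosed_of_closure_subset
    intro z hz
    exact hcon z hz
  have := isClopen_iff.1 ⟨hcl, hopen⟩
  rcases this with h | h
  · have : x ∈ {y | r i y < s} := hx
    rw [h] at this; exact this
  · have : x' ∈ {y | r i y < s} := by rw [h]; trivial
    exact absurd this (not_lt.2 hx')

/-- If an open-type set B is inside all sublevel sets above t, then r i is at most t on its closure. -/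
lemma le_on_closure (hc : ∀ i, Continuous (r i)) (i : I) (t : ℝ) {B : Set X}
    (h : ∀ s, t < s → B ⊆ {y | r i y < s}) {z : X} (hz : z ∈ closure B) : r i z ≤ t := by
  have h1 : B ⊆ {y | r i y ≤ t} := by
    intro y hy
    by_contra hcon
    have hcon' : t < r i y := not_le.1 hcon
    have h3 : r i y < r i y := h (r i y) hcon' hy
    exact lt_irrefl _ h3
  have h2 : IsClosed {y | r i y ≤ t} := isClosed_le (hc i) continuous_const
  exact closure_minimal h1 h2 hz

/-- Key lower bound. -/
lemma ge_of_bdry (hc : ∀ i, Continuous (r i)) (hl : Lami r) (i j : I) (s : ℝ) {z y : X} (hz : z ∈ closure {y | r j y < s})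
    (hz' : s ≤ r j z) (hy : r j y < s) : r i y ≤ r i z := by
  by_contra hcon
  push Not at hcon
  -- A = {r_i < r_i y}
  rcases hl i j (r i y) s with h | h | h
  · have : z ∈ {x | r j x < s} := h hcon
    exact absurd this (not_lt.2 hz')
  · have : r i y < r i y := h hy
    exact lt_irrefl _ this
  · have hopen : IsOpen {x | r i x < r i y} := isOpen_lt (hc i) continuous_const
    obtain ⟨b, hb1, hb2⟩ := mem_closure_iff.1 hz _ hopen hcon
    exact (Set.disjoint_left.1 h) hb1 hb2

/-- (F2) -/
lemma F2 [PreconnectedSpace X] (hc : ∀ i, Continuous (r i)) (hl : Lami r) (x x' : X) :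
    ∃ z, ∀ i ∈ F, r i z = max (r i x) (r i x') := by
  classical
  by_cases h1 : leF r F x' x
  · exact ⟨x, fun i hi => (max_eq_left (h1 i hi)).symm⟩
  unfold leF at h1
  push Not at h1
  -- the largest B
  let P := F.filter (fun i => r i x < r i x')
  have hP : P.Nonempty := by
    obtain ⟨i, hi, hi'⟩ := h1
    exact ⟨i, Finset.mem_filter.2 ⟨hi, hi'⟩⟩
  have hnest : ∀ i ∈ P, ∀ j ∈ P, {y | r i y < r i x'} ⊆ {y | r j y < r j x'} ∨
      {y | r j y < r j x'} ⊆ {y | r i y < r i x'} := by
    intro i hi j hj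
    rcases hl i j (r i x') (r j x') with h | h | h
    · exact Or.inl h
    · exact Or.inr h
    · exfalso
      exact (Set.disjoint_left.1 h) (show x ∈ {y | r i y < r i x'} from (Finset.mem_filter.1 hi).2)
        (show x ∈ {y | r j y < r j x'} from (Finset.mem_filter.1 hj).2)
  obtain ⟨i₀, hi₀, hmax⟩ : ∃ i₀ ∈ P, ∀ i ∈ P, {y | r i y < r i x'} ⊆ {y | r i₀ y < r i₀ x'} := by
    obtain ⟨B, hB⟩ := (P.image fun i => {y | r i y < r i x'}).exists_maximal (hP.image _)
    obtain ⟨i₀, hi₀, rfl⟩ := Finset.mem_image.1 hB.1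
    refine ⟨i₀, hi₀, fun i hi => ?_⟩
    rcases hnest i hi i₀ hi₀ with h | h
    · exact h
    · exact hB.2 (Finset.mem_image_of_mem _ hi) h
  have hx0 : r i₀ x < r i₀ x' := (Finset.mem_filter.1 hi₀).2
  obtain ⟨z, hz1, hz2⟩ := exists_bdry hc i₀ (r i₀ x') hx0 (le_refl (r i₀ x'))
  refine ⟨z, fun i hi => ?_⟩
  have hlow : r i x ≤ r i z := ge_of_bdry hc hl i i₀ _ hz1 hz2 hx0
  have hup : ∀ t, r i x ≤ t → r i x' ≤ t → r i z ≤ t := by
    intro t ht ht'
    apply le_on_closure hc i t _ hz1
    intro s hs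
    rcases hl i i₀ s (r i₀ x') with h | h | h
    · exfalso
      have : r i₀ x' < r i₀ x' := h (show r i x' < s from ht'.trans_lt hs)
      exact lt_irrefl _ this
    · exact h
    · exfalso
      exact (Set.disjoint_left.1 h) (show x ∈ {y | r i y < s} from ht.trans_lt hs) hx0
  apply le_antisymm
  · exact hup _ (le_max_left _ _) (le_max_right _ _)
  · apply max_le hlow
    by_cases hi' : r i x < r i x'
    · by_contra hcon
      push Not at hcon
      have : z ∈ {y | r i₀ y < r i₀ x'} := hmax i (Finset.mem_filter.2 ⟨hi, hi'⟩) hcon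
      exact absurd this (not_lt.2 hz2)
    · exact (not_lt.1 hi').trans hlow

/-- (F2') -/
lemma F2' [PreconnectedSpace X] (hc : ∀ i, Continuous (r i)) (hl : Lami r) {z x' : X}
    (hz : leF r F z x') (hnz : ¬ leF r F x' z) {e : ℝ} (he : 0 < e) :
    ∃ z', leF r F z z' ∧ leF r F z' x' ∧ ¬ leF r F z' z ∧ ∀ i ∈ F, r i z' ≤ r i z + e := by
  classical
  unfold leF at hnz
  push Not at hnz
  let P := F.filter (fun i => r i z < r i x')
  have hP : P.Nonempty := by
    obtain ⟨i, hi, hi'⟩ := hnz
    exact ⟨i, Finset.mem_filter.2 ⟨hi, hi'⟩⟩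
  obtain ⟨d, hd0, hde, hdP⟩ : ∃ d : ℝ, 0 < d ∧ d ≤ e ∧ ∀ i ∈ P, r i z + d ≤ r i x' := by
    obtain ⟨i₁, hi₁, hmin⟩ := P.exists_min_image (fun i => r i x' - r i z) hP
    have hpos : 0 < r i₁ x' - r i₁ z := sub_pos.2 (Finset.mem_filter.1 hi₁).2
    refine ⟨min e (r i₁ x' - r i₁ z), lt_min he hpos, min_le_left _ _, fun i hi => ?_⟩
    have h1 := hmin i hi
    have h2 := min_le_right e (r i₁ x' - r i₁ z)
    linarith
  have hnest : ∀ i ∈ P, ∀ j ∈ P, {y | r i y < r i z + d} ⊆ {y | r j y < r j z + d} ∨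
      {y | r j y < r j z + d} ⊆ {y | r i y < r i z + d} := by
    intro i hi j hj
    rcases hl i j (r i z + d) (r j z + d) with h | h | h
    · exact Or.inl h
    · exact Or.inr h
    · exfalso
      exact (Set.disjoint_left.1 h) (show r i z < r i z + d by linarith) (show r j z < r j z + d by linarith)
  obtain ⟨i₀, hi₀, hmin⟩ : ∃ i₀ ∈ P, ∀ i ∈ P, {y | r i₀ y < r i₀ z + d} ⊆ {y | r i y < r i z + d} := by
    obtain ⟨B, hB⟩ := (P.image fun i => {y | r i y < r i z + d}).exists_minimal (hP.image _)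
    obtain ⟨i₀, hi₀, rfl⟩ := Finset.mem_image.1 hB.1
    refine ⟨i₀, hi₀, fun i hi => ?_⟩
    rcases hnest i₀ hi₀ i hi with h | h
    · exact h
    · exact hB.2 (Finset.mem_image_of_mem _ hi) h
  have hz0 : r i₀ z < r i₀ z + d := by linarith
  obtain ⟨z', hz1, hz2⟩ := exists_bdry hc i₀ (r i₀ z + d) hz0 (hdP i₀ hi₀)
  have hlow : ∀ i, r i z ≤ r i z' := fun i => ge_of_bdry hc hl i i₀ _ hz1 hz2 hz0
  have hupP : ∀ i ∈ P, r i z' ≤ r i z + d := by
    intro i hi
    apply le_on_closure hc i _ _ hz1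
    intro s hs
    exact (hmin i hi).trans fun y hy => lt_trans (show r i y < r i z + d from hy) hs
  have hupN : ∀ i ∈ F, i ∉ P → r i z' ≤ r i z := by
    intro i hi hiP
    have hle : r i x' ≤ r i z := by
      by_contra hcon
      push Not at hcon
      exact hiP (Finset.mem_filter.2 ⟨hi, hcon⟩)
    apply le_on_closure hc i _ _ hz1
    intro s hs
    rcases hl i i₀ s (r i₀ z + d) with h | h | h
    · exfalso
      have : x' ∈ {y | r i₀ y < r i₀ z + d} := h (show r i x' < s from hle.trans_lt hs)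
      exact absurd this (not_lt.2 (hdP i₀ hi₀))
    · exact h
    · exfalso
      exact (Set.disjoint_left.1 h) (show r i z < s from hs) hz0
  refine ⟨z', fun i _ => hlow i, fun i hi => ?_, fun h => ?_, fun i hi => ?_⟩
  · by_cases hiP : i ∈ P
    · exact (hupP i hiP).trans (hdP i hiP)
    · exact (hupN i hi hiP).trans (hz i hi)
  · have := h i₀ (Finset.mem_filter.1 hi₀).1
    linarith
  · by_cases hiP : i ∈ P
    · exact (hupP i hiP).trans (by linarith)
    · exact (hupN i hi hiP).trans (by linarith)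

/-- The height function. -/
def tau (r : I → X → ℝ) (F : Finset I) (x : X) : ℝ := ∑ i ∈ F, r i x

omit [TopologicalSpace X] in
lemma tau_mono {x y : X} (h : leF r F x y) : tau r F x ≤ tau r F y := Finset.sum_le_sum h

omit [TopologicalSpace X] in
lemma tau_lt {x y : X} (h : leF r F x y) (h' : ¬ leF r F y x) : tau r F x < tau r F y := by
  unfold leF at h'
  push Not at h'
  obtain ⟨i, hi, hi'⟩ := h'
  exact Finset.sum_lt_sum h ⟨i, hi, hi'⟩

lemma tau_cont (hc : ∀ i, Continuous (r i)) : Continuous (tau r F) :=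
  continuous_finset_sum _ fun i _ => hc i

lemma closed_seg (hc : ∀ i, Continuous (r i)) (x x' : X) : IsClosed {z | leF r F x z ∧ leF r F z x'} := by
  have : {z | leF r F x z ∧ leF r F z x'} = ⋂ i ∈ F, {z | r i x ≤ r i z ∧ r i z ≤ r i x'} := by
    ext z
    simp only [mem_setOf_eq, mem_iInter, leF]
    constructor
    · rintro ⟨h1, h2⟩ i hi; exact ⟨h1 i hi, h2 i hi⟩
    · intro h; exact ⟨fun i hi => (h i hi).1, fun i hi => (h i hi).2⟩
  rw [this]
  refine isClosed_biInter fun i _ => ?_
  exact (isClosed_le continuous_const (hc i)).inter (isClosed_le (hc i) continuous_const)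

/-- A supremum of heights of a subset of a segment is attained by a point of the segment. -/
lemma exists_sup [CompactSpace X] (hc : ∀ i, Continuous (r i)) (x x' : X) (A : Set X) (hA : A.Nonempty)
    (hAV : ∀ a ∈ A, leF r F x a ∧ leF r F a x') :
    ∃ z, leF r F x z ∧ leF r F z x' ∧ tau r F z = sSup (tau r F '' A) := by
  have hV : IsCompact {z | leF r F x z ∧ leF r F z x'} := (closed_seg hc x x').isCompact
  have hVt : IsCompact (tau r F '' {z | leF r F x z ∧ leF r F z x'}) := hV.image (tau_cont hc)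
  have hsub : tau r F '' A ⊆ tau r F '' {z | leF r F x z ∧ leF r F z x'} := by
    rintro _ ⟨a, ha, rfl⟩
    exact ⟨a, hAV a ha, rfl⟩
  have hmem : sSup (tau r F '' A) ∈ closure (tau r F '' A) :=
    csSup_mem_closure (hA.image _) (hVt.bddAbove.mono hsub)
  have := hVt.isClosed.closure_subset_iff.2 hsub hmem
  obtain ⟨z, hz, hz'⟩ := this
  exact ⟨z, hz.1, hz.2, hz'⟩

/-- Approximation from below. -/
lemma F2down [PreconnectedSpace X] [CompactSpace X] (hc : ∀ i, Continuous (r i)) (hl : Lami r) {x g : X}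
    (hx : leF r F x g) (hnx : ¬ leF r F g x) {e : ℝ} (he : 0 < e) :
    ∃ z, leF r F x z ∧ leF r F z g ∧ ¬ leF r F g z ∧ ∀ i ∈ F, r i g < r i z + e := by
  classical
  let A : Set X := {z | leF r F x z ∧ leF r F z g ∧ ¬ leF r F g z}
  have hA : A.Nonempty := ⟨x, leF_refl x, hx, hnx⟩
  obtain ⟨z, hz1, hz2, hz3⟩ := exists_sup (F := F) hc x g A hA fun a ha => ⟨ha.1, ha.2.1⟩
  have hbdd : BddAbove (tau r F '' A) := by
    refine ⟨tau r F g, ?_⟩
    rintro _ ⟨a, ha, rfl⟩
    exact tau_mono ha.2.1
  have hsup : sSup (tau r F '' A) = tau r F g := by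
    apply le_antisymm
    · apply csSup_le (hA.image _)
      rintro _ ⟨a, ha, rfl⟩
      exact tau_mono ha.2.1
    · by_contra hcon
      push Not at hcon
      rw [← hz3] at hcon
      have hgz : ¬ leF r F g z := fun h => absurd (tau_mono h) (not_le.2 hcon)
      let c : ℝ := (tau r F g - tau r F z) / (F.card + 1)
      have hcpos : 0 < c := div_pos (sub_pos.2 hcon) (by positivity)
      obtain ⟨z', h1, h2, h3, h4⟩ := F2' hc hl hz2 hgz hcpos
      have h5 : tau r F z' < tau r F g := by
        have h6 : tau r F z' ≤ tau r F z + F.card * c := by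
          unfold tau
          calc ∑ i ∈ F, r i z' ≤ ∑ i ∈ F, (r i z + c) := Finset.sum_le_sum h4
            _ = _ := by rw [Finset.sum_add_distrib, Finset.sum_const, nsmul_eq_mul]
        have h7 : (F.card : ℝ) * c < tau r F g - tau r F z := by
          have hne : (0 : ℝ) < F.card + 1 := by positivity
          have : (F.card + 1 : ℝ) * c = tau r F g - tau r F z := by
            show (F.card + 1 : ℝ) * ((tau r F g - tau r F z) / (F.card + 1)) = _
            field_simp
          nlinarith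
        linarith
      have h8 : z' ∈ A := ⟨leF_trans hz1 h1, h2, fun h => absurd (tau_mono h) (not_le.2 h5)⟩
      have h9 : tau r F z' ≤ sSup (tau r F '' A) := le_csSup hbdd ⟨z', h8, rfl⟩
      rw [← hz3] at h9
      exact absurd (tau_lt h1 h3) (not_lt.2 h9)
  obtain ⟨_, ⟨a, ha, rfl⟩, hlt⟩ := exists_lt_of_lt_csSup (hA.image (tau r F))
    (show tau r F g - e < sSup (tau r F '' A) by rw [hsup]; linarith)
  refine ⟨a, ha.1, ha.2.1, ha.2.2, fun i hi => ?_⟩
  by_contra hcon
  push Not at hcon
  have h1 : tau r F a + e ≤ tau r F g := by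
    unfold tau
    rw [← Finset.add_sum_erase F (fun i => r i a) hi, ← Finset.add_sum_erase F (fun i => r i g) hi]
    have : ∑ j ∈ F.erase i, r j a ≤ ∑ j ∈ F.erase i, r j g :=
      Finset.sum_le_sum fun j hj => ha.2.1 j (Finset.mem_of_mem_erase hj)
    linarith
  linarith

/-- (CI0) Chain induction. -/
theorem chain_induction [PreconnectedSpace X] [CompactSpace X] (hc : ∀ i, Continuous (r i)) (hl : Lami r)
    {x x' : X} (hxx : leF r F x x') (Th : X → Prop)
    (hdep : ∀ z z', leF r F z z' → leF r F z' z → Th z → Th z')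
    (h0 : Th x)
    (hL : ∀ g, leF r F x g → leF r F g x' → ¬ leF r F g x → ∃ e : ℝ, 0 < e ∧
      ∀ z, leF r F x z → leF r F z g → ¬ leF r F g z → (∀ i ∈ F, r i g < r i z + e) → Th z → Th g)
    (hR : ∀ g, leF r F x g → leF r F g x' → Th g → ∃ e : ℝ, 0 < e ∧
      ∀ z, leF r F g z → leF r F z x' → (∀ i ∈ F, r i z < r i g + e) → Th z) : Th x' := by
  classical
  let A : Set X := {z | leF r F x z ∧ leF r F z x' ∧ ∀ y, leF r F x y → leF r F y z → Th y}
  have hxA : x ∈ A := ⟨leF_refl x, hxx, fun y h1 h2 => hdep x y h1 h2 h0⟩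
  obtain ⟨z, hz1, hz2, hz3⟩ := exists_sup (F := F) hc x x' A ⟨x, hxA⟩ fun a ha => ⟨ha.1, ha.2.1⟩
  have hbdd : BddAbove (tau r F '' A) := by
    refine ⟨tau r F x', ?_⟩
    rintro _ ⟨a, ha, rfl⟩
    exact tau_mono ha.2.1
  -- everything strictly below z is good
  have hbelow : ∀ y, leF r F x y → leF r F y z → ¬ leF r F z y → Th y := by
    intro y h1 h2 h3
    have h4 : tau r F y < sSup (tau r F '' A) := by rw [← hz3]; exact tau_lt h2 h3
    obtain ⟨_, ⟨a, ha, rfl⟩, hlt⟩ := exists_lt_of_lt_csSup (Set.Nonempty.image (tau r F) (⟨x, hxA⟩ : A.Nonempty)) h4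
    rcases F1 (F := F) hl h1 ha.1 with h5 | h5
    · exact ha.2.2 y h1 h5
    · exact absurd (tau_mono h5) (not_le.2 hlt)
  have hThz : Th z := by
    by_cases hzx : leF r F z x
    · exact hdep x z hz1 hzx h0
    · obtain ⟨e, he, hstep⟩ := hL z hz1 hz2 hzx
      obtain ⟨y, h1, h2, h3, h4⟩ := F2down hc hl hz1 hzx he
      exact hstep y h1 h2 h3 h4 (hbelow y h1 h2 h3)
  have hall : ∀ y, leF r F x y → leF r F y z → Th y := by
    intro y h1 h2
    by_cases h3 : leF r F z y
    · exact hdep z y h3 h2 hThz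
    · exact hbelow y h1 h2 h3
  by_cases hx'z : leF r F x' z
  · exact hdep z x' hz2 hx'z hThz
  · exfalso
    obtain ⟨e, he, hstep⟩ := hR z hz1 hz2 hThz
    obtain ⟨y, h1, h2, h3, h4⟩ := F2' hc hl hz2 hx'z (half_pos he)
    have hyA : y ∈ A := by
      refine ⟨leF_trans hz1 h1, h2, fun u hu1 hu2 => ?_⟩
      rcases F1 (F := F) hl hu1 hz1 with h5 | h5
      · exact hall u hu1 h5
      · apply hstep u h5 (leF_trans hu2 h2)
        intro i hi
        have := hu2 i hi
        have := h4 i hi
        linarith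
    have h9 : tau r F y ≤ sSup (tau r F '' A) := le_csSup hbdd ⟨y, hyA, rfl⟩
    rw [← hz3] at h9
    exact absurd (tau_lt h1 h3) (not_lt.2 h9)

end

end Pool.Agent.Helper85.DT
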