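import Mathlib

/-!
Section 6 of the proof of S13177: the parity lemma for the fold sheets.
-/

set_option autoImplicit false
set_option linter.unusedSectionVars false

namespace Pool.Agent.Helper85.DT

open Set

/-- Connectedness of a set of vertices. -/
def Cn {V : Type} (adj : V → V → Prop) (A : Set V) : Prop :=
  A.Nonempty ∧ ∀ x ∈ A, ∀ y ∈ A, Relation.ReflTransGen (fun a b => adj a b ∧ b ∈ A) x y

/-- The status of a test. -/
inductive Stat
  | one | three | full
deriving DecidableEq, Fintype

/-- The fold. -/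
def nu : Fin 9 → Fin 5 := ![0, 1, 2, 3, 2, 1, 2, 3, 4]

/-- Allowed sheets. -/
def al (s : Stat) (a : Fin 9) : Prop :=
  match s with
  | .one => a.val ≤ 3
  | .three => 5 ≤ a.val
  | .full => True

instance (s : Stat) (a : Fin 9) : Decidable (al s a) := by
  cases s <;> (unfold al; infer_instance)

/-- Weights. -/
def wt (s : Stat) (a : Fin 9) : ZMod 2 :=
  match s with
  | .one => if a.val ≤ 3 then 1 else 0
  | .three => if 5 ≤ a.val then 1 else 0
  | .full => if a.val = 3 ∨ a.val = 5 then 0 else 1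

/-- Nearness of two numbers. -/
def nr {n : ℕ} (a b : Fin n) : Prop := a.val ≤ b.val + 1 ∧ b.val ≤ a.val + 1

instance {n : ℕ} (a b : Fin n) : Decidable (nr a b) := by unfold nr; infer_instance

/-- Compatible value of a test with a status. -/
def vk (s : Stat) (k : Fin 5) : Prop :=
  match s with
  | .one => k.val ≤ 3
  | .three => 1 ≤ k.val
  | .full => True

instance (s : Stat) (k : Fin 5) : Decidable (vk s k) := by
  cases s <;> (unfold vk; infer_instance)

/-- Pinned value of a test. -/
def pk (s : Stat) (k : Fin 5) : Prop :=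
  match s with
  | .one => k.val ≤ 3
  | .three => 1 ≤ k.val
  | .full => k.val ≤ 1 ∨ 3 ≤ k.val

instance (s : Stat) (k : Fin 5) : Decidable (pk s k) := by
  cases s <;> (unfold pk; infer_instance)

/-- Weight of a sheet over the value k. -/
def om (s : Stat) (k : Fin 5) (a : Fin 9) : ZMod 2 := if nu a = k then wt s a else 0

lemma om_supp : ∀ (s : Stat) (k : Fin 5) (a : Fin 9), om s k a ≠ 0 → nu a = k ∧ al s a := by
  intro s k a; cases s <;> revert k a <;> decide

lemma om_total (s : Stat) (k : Fin 5) : vk s k → ∑ a, om s k a = 1 := by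
  cases s <;> revert k <;> decide

lemma om_pin (s : Stat) (k : Fin 5) : pk s k →
    ∃ a, nu a = k ∧ al s a ∧ ∀ b, om s k b = if b = a then 1 else 0 := by
  cases s <;> revert k <;> decide

lemma om_three_full : ∀ (k : Fin 5), 3 ≤ k.val → ∀ a, om .three k a = om .full k a := by decide

lemma om_one_full : ∀ (k : Fin 5), k.val ≤ 1 → ∀ a, om .one k a = om .full k a := by decide

/-- The lift to the first sheet. -/
def l1 (k : Fin 5) : Fin 9 := ⟨k.val, by omega⟩

/-- The lift to the third sheet. -/
def l3 (k : Fin 5) : Fin 9 := ⟨k.val + 4, by omega⟩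

lemma om_one : ∀ k : Fin 5, k.val ≤ 3 → ∀ b, om .one k b = if b = l1 k then 1 else 0 := by decide

lemma om_three : ∀ k : Fin 5, 1 ≤ k.val → ∀ b, om .three k b = if b = l3 k then 1 else 0 := by decide

lemma l1_spec : ∀ k : Fin 5, k.val ≤ 3 → nu (l1 k) = k ∧ al .one (l1 k) := by decide

lemma l3_spec : ∀ k : Fin 5, 1 ≤ k.val → nu (l3 k) = k ∧ al .three (l3 k) := by decide

lemma l1_nr {k k' : Fin 5} (h : nr k k') : nr (l1 k) (l1 k') := h

lemma l3_nr {k k' : Fin 5} (h : nr k k') : nr (l3 k) (l3 k') := by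
  unfold nr l3 at *
  constructor <;> (simp only []; omega)

private lemma sum_pin (a : Fin 9) (w : Fin 9 → ZMod 2) (hw : ∀ b, w b = if b = a then 1 else 0)
    (f : Fin 9 → ZMod 2) : ∑ b, w b * f b = f a := by
  simp [hw]

private lemma sum3 (w : Fin 9 → ZMod 2) (hw : ∀ b, w b = if b = 2 ∨ b = 4 ∨ b = 6 then 1 else 0)
    (f : Fin 9 → ZMod 2) : ∑ b, w b * f b = f 2 + f 4 + f 6 := by
  have : ∑ b, w b * f b = ∑ b ∈ ({2, 4, 6} : Finset (Fin 9)), f b := by
    rw [← Finset.sum_filter_add_sum_filter_not Finset.univ (fun b => b = 2 ∨ b = 4 ∨ b = 6)]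
    rw [Finset.sum_congr rfl (g := fun b => f b)
      (fun b hb => by rw [hw b, if_pos (Finset.mem_filter.1 hb).2, one_mul])]
    rw [Finset.sum_eq_zero (s := Finset.univ.filter (fun b : Fin 9 => ¬(b = 2 ∨ b = 4 ∨ b = 6)))
      (fun b hb => by rw [hw b, if_neg (Finset.mem_filter.1 hb).2, zero_mul]), add_zero]
    apply Finset.sum_congr _ fun _ _ => rfl
    ext b; simp
  rw [this]
  rw [Finset.sum_insert (by decide), Finset.sum_insert (by decide), Finset.sum_singleton, add_assoc]

/-- The finite check. -/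
lemma om_check (s : Stat) (k k' : Fin 5) (hk : vk s k) (hk' : vk s k') (hn : nr k k')
    (f f' : Fin 9 → ZMod 2)
    (h : ∀ a a', nu a = k → al s a → nu a' = k' → al s a' → nr a a' → f a = f' a') :
    ∑ a, om s k a * f a = ∑ a, om s k' a * f' a := by
  have p0 : ∀ b, om .full 0 b = if b = 0 then 1 else 0 := by decide
  have p1 : ∀ b, om .full 1 b = if b = 1 then 1 else 0 := by decide
  have p2 : ∀ b, om .full 2 b = if b = 2 ∨ b = 4 ∨ b = 6 then 1 else 0 := by decide
  have p3 : ∀ b, om .full 3 b = if b = 7 then 1 else 0 := by decide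
  have p4 : ∀ b, om .full 4 b = if b = 8 then 1 else 0 := by decide
  cases s
  · rw [sum_pin _ _ (om_one k hk), sum_pin _ _ (om_one k' hk')]
    exact h _ _ (l1_spec k hk).1 (l1_spec k hk).2 (l1_spec k' hk').1 (l1_spec k' hk').2 (l1_nr hn)
  · rw [sum_pin _ _ (om_three k hk), sum_pin _ _ (om_three k' hk')]
    exact h _ _ (l3_spec k hk).1 (l3_spec k hk).2 (l3_spec k' hk').1 (l3_spec k' hk').2 (l3_nr hn)
  · by_cases hkk : k = k'
    · subst hkk
      apply Finset.sum_congr rfl
      intro a _
      by_cases ha : om .full k a = 0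
      · rw [ha, zero_mul, zero_mul]
      · have := om_supp .full k a ha
        rw [h a a this.1 this.2 this.1 this.2 ⟨by omega, by omega⟩]
    · have hfin : ∀ k k' : Fin 5, nr k k' → k ≠ k' → (k = 0 ∧ k' = 1) ∨ (k = 1 ∧ k' = 0) ∨ (k = 1 ∧ k' = 2) ∨
          (k = 2 ∧ k' = 1) ∨ (k = 2 ∧ k' = 3) ∨ (k = 3 ∧ k' = 2) ∨ (k = 3 ∧ k' = 4) ∨ (k = 4 ∧ k' = 3) := by
        decide
      have two : ∀ x : ZMod 2, x + x = 0 := by decide
      rcases hfin k k' hn hkk with ⟨rfl, rfl⟩ | ⟨rfl, rfl⟩ | ⟨rfl, rfl⟩ | ⟨rfl, rfl⟩ | ⟨rfl, rfl⟩ | ⟨rfl, rfl⟩ |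
        ⟨rfl, rfl⟩ | ⟨rfl, rfl⟩
      · rw [sum_pin _ _ p0, sum_pin _ _ p1]
        exact h 0 1 (by decide) (by decide) (by decide) (by decide) (by decide)
      · rw [sum_pin _ _ p1, sum_pin _ _ p0]
        exact h 1 0 (by decide) (by decide) (by decide) (by decide) (by decide)
      · rw [sum_pin _ _ p1, sum3 _ p2]
        have h1 := h 1 2 (by decide) (by decide) (by decide) (by decide) (by decide)
        have h2 := h 5 4 (by decide) (by decide) (by decide) (by decide) (by decide)
        have h3 := h 5 6 (by decide) (by decide) (by decide) (by decide) (by decide)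
        rw [← h1, ← h2, ← h3, add_assoc, two, add_zero]
      · rw [sum_pin _ _ p1, sum3 _ p2]
        have h1 := h 2 1 (by decide) (by decide) (by decide) (by decide) (by decide)
        have h2 := h 4 5 (by decide) (by decide) (by decide) (by decide) (by decide)
        have h3 := h 6 5 (by decide) (by decide) (by decide) (by decide) (by decide)
        rw [h1, h2, h3, add_assoc, two, add_zero]
      · rw [sum_pin _ _ p3, sum3 _ p2]
        have h1 := h 2 3 (by decide) (by decide) (by decide) (by decide) (by decide)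
        have h2 := h 4 3 (by decide) (by decide) (by decide) (by decide) (by decide)
        have h3 := h 6 7 (by decide) (by decide) (by decide) (by decide) (by decide)
        rw [h1, h2, h3, two, zero_add]
      · rw [sum_pin _ _ p3, sum3 _ p2]
        have h1 := h 3 2 (by decide) (by decide) (by decide) (by decide) (by decide)
        have h2 := h 3 4 (by decide) (by decide) (by decide) (by decide) (by decide)
        have h3 := h 7 6 (by decide) (by decide) (by decide) (by decide) (by decide)
        rw [← h1, ← h2, ← h3, two, zero_add]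
      · rw [sum_pin _ _ p3, sum_pin _ _ p4]
        exact h 7 8 (by decide) (by decide) (by decide) (by decide) (by decide)
      · rw [sum_pin _ _ p4, sum_pin _ _ p3]
        exact h 8 7 (by decide) (by decide) (by decide) (by decide) (by decide)

section
variable {Z T : Type} [Fintype T] [DecidableEq T]

/-- The sheeted set over K. -/
def SS (phi : T → Z → Fin 5) (K : Set Z) (st : T → Stat) : Set (Z × (T → Fin 9)) :=
  {p | p.1 ∈ K ∧ ∀ e, nu (p.2 e) = phi e p.1 ∧ al (st e) (p.2 e)}

/-- Adjacency of the product. -/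
def adjP (adj : Z → Z → Prop) (p q : Z × (T → Fin 9)) : Prop := adj p.1 q.1 ∧ ∀ e, nr (p.2 e) (q.2 e)

/-- Locally constant functions. -/
def LC (adj : Z → Z → Prop) (phi : T → Z → Fin 5) (K : Set Z) (st : T → Stat)
    (g : Z × (T → Fin 9) → ZMod 2) : Prop :=
  ∀ p ∈ SS phi K st, ∀ q ∈ SS phi K st, adjP adj p q → g p = g q

/-- The weighted fibre sum. -/
def fsum (phi : T → Z → Fin 5) (st : T → Stat) (g : Z × (T → Fin 9) → ZMod 2) (z : Z) : ZMod 2 :=
  ∑ v : T → Fin 9, (∏ e, om (st e) (phi e z) (v e)) * g (z, v)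

/-- The distinguished component. -/
def LAM (adj : Z → Z → Prop) (phi : T → Z → Fin 5) (K : Set Z) (st : T → Stat) : Set (Z × (T → Fin 9)) :=
  {b | b ∈ SS phi K st ∧ ∀ g, LC adj phi K st g → ∀ z ∈ K, fsum phi st g z = g b}

/-- Valid configurations. -/
def Valid (phi : T → Z → Fin 5) (K : Set Z) (st : T → Stat) : Prop :=
  ∀ e, (∀ z ∈ K, vk (st e) (phi e z)) ∧ ∃ z ∈ K, pk (st e) (phi e z)

/-! The induction. -/

private def SA (phi : T → Z → Fin 5) (K : Set Z) (st : T → Stat) (A : Finset T) : Set (Z × (T → Fin 9)) :=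
  {p | p.1 ∈ K ∧ ∀ e, if e ∈ A then nu (p.2 e) = phi e p.1 ∧ al (st e) (p.2 e) else p.2 e = 0}

private def LCA (adj : Z → Z → Prop) (phi : T → Z → Fin 5) (K : Set Z) (st : T → Stat) (A : Finset T)
    (g : Z × (T → Fin 9) → ZMod 2) : Prop :=
  ∀ p ∈ SA phi K st A, ∀ q ∈ SA phi K st A, adjP adj p q → g p = g q

private def fA (phi : T → Z → Fin 5) (st : T → Stat) (A : Finset T) (g : Z × (T → Fin 9) → ZMod 2) (z : Z) :
    ZMod 2 :=
  ∑ v : T → Fin 9, (∏ e, if e ∈ A then om (st e) (phi e z) (v e) else if v e = 0 then 1 else 0) * g (z, v)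

private lemma sum_update (F : (T → Fin 9) → ZMod 2) (e : T) :
    ∑ v, F v = ∑ v, if v e = 0 then ∑ a, F (Function.update v e a) else 0 := by
  classical
  rw [← Finset.sum_filter, ← Finset.sum_product']
  apply Finset.sum_nbij' (fun v => (Function.update v e 0, v e)) (fun p => Function.update p.1 e p.2)
  · intro v _
    simp
  · intro p _
    exact Finset.mem_univ _
  · intro v _
    simp
  · rintro ⟨v, a⟩ hp
    have h0 : v e = 0 := by
      have := (Finset.mem_product.1 hp).1
      exact (Finset.mem_filter.1 this).2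
    simp only [Function.update_self, Function.update_idem, Prod.mk.injEq, and_true]
    rw [← h0, Function.update_eq_self]
  · intro v _
    simp

private lemma fA_step (phi : T → Z → Fin 5) (st : T → Stat) (A : Finset T) (e : T) (he : e ∉ A)
    (g : Z × (T → Fin 9) → ZMod 2) (z : Z) :
    fA phi st (insert e A) g z =
      fA phi st A (fun p => ∑ a, om (st e) (phi e p.1) a * g (p.1, Function.update p.2 e a)) z := by
  classical
  unfold fA
  rw [sum_update _ e]
  apply Finset.sum_congr rfl
  intro v _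
  by_cases hv : v e = 0
  · rw [if_pos hv, Finset.mul_sum]
    apply Finset.sum_congr rfl
    intro a _
    rw [← mul_assoc]
    congr 1
    rw [← Finset.prod_erase_mul _ _ (Finset.mem_univ e), ← Finset.prod_erase_mul _ _ (Finset.mem_univ e)]
    rw [if_pos (Finset.mem_insert_self e A), if_neg he, if_pos hv, mul_one, Function.update_self]
    congr 1
    apply Finset.prod_congr rfl
    intro e' he'
    have hne : e' ≠ e := Finset.ne_of_mem_erase he'
    rw [Function.update_of_ne hne]
    simp [Finset.mem_insert, hne]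
  · rw [if_neg hv]
    symm
    rw [← Finset.prod_erase_mul _ _ (Finset.mem_univ e), if_neg he, if_neg hv, mul_zero, zero_mul]

private lemma coreA (adj : Z → Z → Prop) (hsymm : ∀ x y, adj x y → adj y x)
    (phi : T → Z → Fin 5) (hphi : ∀ e x y, adj x y → nr (phi e x) (phi e y)) (K : Set Z) (hK : Cn adj K)
    (st : T → Stat) (hv : Valid phi K st) (A : Finset T) :
    ∃ a₀ ∈ SA phi K st A, ∀ g, LCA adj phi K st A g → ∀ z ∈ K, fA phi st A g z = g a₀ := by
  classical
  induction A using Finset.induction_on with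
  | empty =>
    obtain ⟨z₀, hz₀⟩ := hK.1
    refine ⟨(z₀, fun _ => 0), ⟨hz₀, by simp⟩, ?_⟩
    intro g hg z hz
    have h1 : fA phi st ∅ g z = g (z, fun _ => 0) := by
      unfold fA
      rw [Finset.sum_eq_single (fun _ => 0)]
      · simp
      · intro v _ hv0
        obtain ⟨e, he⟩ := Function.ne_iff.1 hv0
        rw [Finset.prod_eq_zero (Finset.mem_univ e) (by simp [he]), zero_mul]
      · intro h; exact absurd (Finset.mem_univ _) h
    rw [h1]
    have h2 := hK.2 z₀ hz₀ z hz
    have : ∀ y, Relation.ReflTransGen (fun a b => adj a b ∧ b ∈ K) z₀ y → y ∈ K ∧ g (z₀, fun _ => 0) = g (y, fun _ => 0) := by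
      intro y hy
      induction hy with
      | refl => exact ⟨hz₀, rfl⟩
      | tail _ hbc ih =>
        refine ⟨hbc.2, ih.2.trans ?_⟩
        apply hg _ ⟨ih.1, by simp⟩ _ ⟨hbc.2, by simp⟩
        exact ⟨hbc.1, fun e => ⟨by simp, by simp⟩⟩
    exact (this z h2).2.symm
  | insert e A he ih =>
    obtain ⟨a₀, ha₀, hcore⟩ := ih
    -- push forward
    let star : (Z × (T → Fin 9) → ZMod 2) → (Z × (T → Fin 9) → ZMod 2) :=
      fun g p => ∑ a, om (st e) (phi e p.1) a * g (p.1, Function.update p.2 e a)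
    have hupd : ∀ p ∈ SA phi K st A, ∀ a, nu a = phi e p.1 → al (st e) a →
        (p.1, Function.update p.2 e a) ∈ SA phi K st (insert e A) := by
      intro p hp a h1 h2
      refine ⟨hp.1, fun e' => ?_⟩
      by_cases hee : e' = e
      · subst hee
        simp [h1, h2]
      · have := hp.2 e'
        simp only [Finset.mem_insert, hee, false_or, Function.update_of_ne hee] at this ⊢
        exact this
    have hstar : ∀ g, LCA adj phi K st (insert e A) g → LCA adj phi K st A (star g) := by
      intro g hg p hp q hq hpq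
      apply om_check (st e) (phi e p.1) (phi e q.1) ((hv e).1 _ hp.1) ((hv e).1 _ hq.1) (hphi e _ _ hpq.1)
      intro a a' h1 h2 h3 h4 h5
      apply hg _ (hupd p hp a h1 h2) _ (hupd q hq a' h3 h4)
      refine ⟨hpq.1, fun e' => ?_⟩
      by_cases hee : e' = e
      · subst hee; simpa using h5
      · simpa [Function.update_of_ne hee] using hpq.2 e'
    -- the component of a₀
    let R : Z × (T → Fin 9) → Prop := fun b =>
      Relation.ReflTransGen (fun a b => adjP adj a b ∧ b ∈ SA phi K st A) a₀ b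
    have hR : ∀ b, R b → ∀ g, LCA adj phi K st A g → b ∈ SA phi K st A ∧ g a₀ = g b := by
      intro b hb g hg
      induction hb with
      | refl => exact ⟨ha₀, rfl⟩
      | tail _ hbc ih => exact ⟨hbc.2, ih.2.trans (hg _ ih.1 _ hbc.2 hbc.1)⟩
    have hadjP_symm : ∀ p q : Z × (T → Fin 9), adjP adj p q → adjP adj q p := by
      intro p q h
      exact ⟨hsymm _ _ h.1, fun e => ⟨(h.2 e).2, (h.2 e).1⟩⟩
    let ind : Z × (T → Fin 9) → ZMod 2 := fun b => if R b then 1 else 0
    have hind : LCA adj phi K st A ind := by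
      intro p hp q hq hpq
      have h1 : R p ↔ R q :=
        ⟨fun h => h.tail ⟨hpq, hq⟩, fun h => h.tail ⟨hadjP_symm _ _ hpq, hp⟩⟩
      show (if R p then (1 : ZMod 2) else 0) = if R q then 1 else 0
      simp [h1]
    obtain ⟨z, hz, hpin⟩ := (hv e).2
    have hone : fA phi st A ind z = 1 := by
      rw [hcore ind hind z hz]
      show (if R a₀ then (1 : ZMod 2) else 0) = 1
      rw [if_pos Relation.ReflTransGen.refl]
    obtain ⟨v, hvR⟩ : ∃ v, R (z, v) := by
      by_contra hcon
      push Not at hcon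
      have : fA phi st A ind z = 0 := by
        unfold fA
        apply Finset.sum_eq_zero
        intro v _
        have : ind (z, v) = 0 := if_neg (hcon v)
        rw [this, mul_zero]
      rw [this] at hone
      exact absurd hone (by decide)
    obtain ⟨a, h1, h2, h3⟩ := om_pin (st e) (phi e z) hpin
    refine ⟨(z, Function.update v e a), ?_, ?_⟩
    · have hzv := (hR _ hvR ind hind).1
      exact hupd (z, v) hzv a h1 h2
    · intro g hg y hy
      rw [fA_step phi st A e he g y]
      have h4 := hcore (star g) (hstar g hg) y hy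
      have h5 := (hR _ hvR (star g) (hstar g hg)).2
      have h6 : star g (z, v) = g (z, Function.update v e a) := by
        show ∑ b, om (st e) (phi e z) b * g (z, Function.update v e b) = _
        exact sum_pin a _ h3 _
      rw [← h6, ← h5, ← h4]

private lemma SA_univ (phi : T → Z → Fin 5) (K : Set Z) (st : T → Stat) : SA phi K st Finset.univ = SS phi K st := by
  ext p; simp [SA, SS]

/-- CORE. -/
theorem core (adj : Z → Z → Prop) (hsymm : ∀ x y, adj x y → adj y x)
    (phi : T → Z → Fin 5) (hphi : ∀ e x y, adj x y → nr (phi e x) (phi e y)) (K : Set Z) (hK : Cn adj K)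
    (st : T → Stat) (hv : Valid phi K st) : (LAM adj phi K st).Nonempty := by
  obtain ⟨a₀, ha₀, h⟩ := coreA adj hsymm phi hphi K hK st hv Finset.univ
  refine ⟨a₀, SA_univ phi K st ▸ ha₀, ?_⟩
  intro g hg z hz
  have := h g (by unfold LCA; rw [SA_univ]; exact hg) z hz
  rw [← this]
  simp [fsum, fA]

lemma adjP_symm {adj : Z → Z → Prop} (hsymm : ∀ x y, adj x y → adj y x) (p q : Z × (T → Fin 9))
    (h : adjP adj p q) : adjP adj q p :=
  ⟨hsymm _ _ h.1, fun e => ⟨(h.2 e).2, (h.2 e).1⟩⟩

lemma LAM_sub (adj : Z → Z → Prop) (phi : T → Z → Fin 5) (K : Set Z) (st : T → Stat) :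
    LAM adj phi K st ⊆ SS phi K st := fun _ h => h.1

/-- LAM is closed under adjacency inside SS. -/
lemma LAM_closed {adj : Z → Z → Prop} {phi : T → Z → Fin 5} {K : Set Z} {st : T → Stat}
    {b q : Z × (T → Fin 9)} (hb : b ∈ LAM adj phi K st) (hq : q ∈ SS phi K st) (h : adjP adj b q) :
    q ∈ LAM adj phi K st :=
  ⟨hq, fun g hg z hz => (hb.2 g hg z hz).trans (hg b hb.1 q hq h)⟩

/-- LAM projects onto K. -/
lemma LAM_proj {adj : Z → Z → Prop} (hsymm : ∀ x y, adj x y → adj y x) {phi : T → Z → Fin 5}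
    {K : Set Z} {st : T → Stat} (hne : (LAM adj phi K st).Nonempty) {z : Z} (hz : z ∈ K) :
    ∃ v, (z, v) ∈ LAM adj phi K st := by
  classical
  obtain ⟨b, hb⟩ := hne
  let g : Z × (T → Fin 9) → ZMod 2 := fun p => if p ∈ LAM adj phi K st then 1 else 0
  have hg : LC adj phi K st g := by
    intro p hp q hq hpq
    have : p ∈ LAM adj phi K st ↔ q ∈ LAM adj phi K st :=
      ⟨fun h => LAM_closed h hq hpq, fun h => LAM_closed h hp (adjP_symm hsymm _ _ hpq)⟩
    show (if p ∈ LAM adj phi K st then (1 : ZMod 2) else 0) = if q ∈ LAM adj phi K st then 1 else 0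
    simp [this]
  have h1 := hb.2 g hg z hz
  by_contra hcon
  push Not at hcon
  have h2 : fsum phi st g z = 0 := by
    unfold fsum
    apply Finset.sum_eq_zero
    intro v _
    have : g (z, v) = 0 := if_neg (hcon v)
    rw [this, mul_zero]
  have h3 : g b = 1 := if_pos hb
  rw [h2, h3] at h1
  exact absurd h1 (by decide)

/-- LAM is connected. -/
lemma LAM_cn {adj : Z → Z → Prop} (hsymm : ∀ x y, adj x y → adj y x) {phi : T → Z → Fin 5}
    {K : Set Z} (hK : K.Nonempty) {st : T → Stat} (hne : (LAM adj phi K st).Nonempty) :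
    Cn (adjP adj) (LAM adj phi K st) := by
  classical
  refine ⟨hne, fun x hx y hy => ?_⟩
  let R : Z × (T → Fin 9) → Prop := fun b =>
    Relation.ReflTransGen (fun a b => adjP adj a b ∧ b ∈ LAM adj phi K st) x b
  have hR : ∀ b, R b → b ∈ LAM adj phi K st := by
    intro b hb
    cases hb with
    | refl => exact hx
    | tail _ h => exact h.2
  let g : Z × (T → Fin 9) → ZMod 2 := fun p => if R p then 1 else 0
  have hg : LC adj phi K st g := by
    intro p hp q hq hpq
    have : R p ↔ R q := by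
      constructor
      · intro h
        exact Relation.ReflTransGen.tail h ⟨hpq, LAM_closed (hR p h) hq hpq⟩
      · intro h
        exact Relation.ReflTransGen.tail h ⟨adjP_symm hsymm _ _ hpq,
          LAM_closed (hR q h) hp (adjP_symm hsymm _ _ hpq)⟩
    show (if R p then (1 : ZMod 2) else 0) = if R q then 1 else 0
    simp [this]
  obtain ⟨z, hz⟩ := hK
  have h1 : g x = g y := (hx.2 g hg z hz).symm.trans (hy.2 g hg z hz)
  have h2 : g x = 1 := if_pos Relation.ReflTransGen.refl
  by_contra hcon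
  have h3 : g y = 0 := if_neg hcon
  rw [h2, h3] at h1
  exact absurd h1 (by decide)

/-- A connected subset of SS meeting LAM is inside LAM. -/
lemma LAM_absorb {adj : Z → Z → Prop} {phi : T → Z → Fin 5}
    {K : Set Z} {st : T → Stat} {A : Set (Z × (T → Fin 9))} (hA : Cn (adjP adj) A) (hAS : A ⊆ SS phi K st)
    {a : Z × (T → Fin 9)} (ha : a ∈ A) (haL : a ∈ LAM adj phi K st) : A ⊆ LAM adj phi K st := by
  intro b hb
  have h := hA.2 a ha b hb
  have : ∀ y, Relation.ReflTransGen (fun a b => adjP adj a b ∧ b ∈ A) a y → y ∈ LAM adj phi K st := by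
    intro y hy
    induction hy with
    | refl => exact haL
    | tail _ hbc ih => exact LAM_closed ih (hAS hbc.2) hbc.1
  exact this b h

/-- TRANSFER. -/
theorem transfer {Z₂ T₂ : Type} [Fintype T₂] [DecidableEq T₂]
    {adj : Z → Z → Prop} {phi : T → Z → Fin 5} {K : Set Z} {st : T → Stat}
    {adj₂ : Z₂ → Z₂ → Prop} {phi₂ : T₂ → Z₂ → Fin 5} {K₂ : Set Z₂} {st₂ : T₂ → Stat}
    (hne : (LAM adj₂ phi₂ K₂ st₂).Nonempty)
    (H : Z × (T → Fin 9) → Z₂ × (T₂ → Fin 9))
    (hS : ∀ p ∈ SS phi K st, H p ∈ SS phi₂ K₂ st₂)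
    (hadj : ∀ p ∈ SS phi K st, ∀ q ∈ SS phi K st, adjP adj p q → adjP adj₂ (H p) (H q))
    {z : Z} (hz : z ∈ K) {z₂ : Z₂} (hz₂ : z₂ ∈ K₂)
    (hsum : ∀ g, ∑ v : T → Fin 9, (∏ e, om (st e) (phi e z) (v e)) * g (H (z, v)) = fsum phi₂ st₂ g z₂) :
    ∀ b ∈ LAM adj phi K st, H b ∈ LAM adj₂ phi₂ K₂ st₂ := by
  intro b hb
  obtain ⟨a₀, ha₀⟩ := hne
  refine ⟨hS b hb.1, fun g hg y hy => ?_⟩
  have hgH : LC adj phi K st (fun p => g (H p)) := by
    intro p hp q hq hpq
    exact hg _ (hS p hp) _ (hS q hq) (hadj p hp q hq hpq)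
  have h1 := hb.2 _ hgH z hz
  have h2 : fsum phi st (fun p => g (H p)) z = fsum phi₂ st₂ g z₂ := hsum g
  have h3 := ha₀.2 g hg y hy
  have h4 := ha₀.2 g hg z₂ hz₂
  rw [h3, ← h4, ← h2, h1]

/-- (Fb) -/
lemma LAM_mono {adj : Z → Z → Prop} {phi : T → Z → Fin 5} {K K' : Set Z} {st : T → Stat}
    (hK : K.Nonempty) (hKK : K ⊆ K') (hne : (LAM adj phi K' st).Nonempty) :
    LAM adj phi K st ⊆ LAM adj phi K' st := by
  obtain ⟨z, hz⟩ := hK
  intro b hb
  exact transfer hne id (fun p hp => ⟨hKK hp.1, hp.2⟩) (fun _ _ _ _ h => h) hz (hKK hz)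
    (fun _ => rfl) b hb

/-- (Fc) -/
lemma LAM_stat {adj : Z → Z → Prop} {phi : T → Z → Fin 5} {K : Set Z} {st st' : T → Stat}
    (hne : (LAM adj phi K st').Nonempty) {z : Z} (hz : z ∈ K)
    (hz' : ∀ e, st' e = st e ∨ (st e = .one ∧ st' e = .full ∧ (phi e z).val ≤ 1) ∨
      (st e = .three ∧ st' e = .full ∧ 3 ≤ (phi e z).val)) :
    LAM adj phi K st ⊆ LAM adj phi K st' := by
  intro b hb
  refine transfer hne id (fun p hp => ⟨hp.1, fun e => ⟨(hp.2 e).1, ?_⟩⟩) (fun _ _ _ _ h => h) hz hz
    (fun g => ?_) b hb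
  · rcases hz' e with h | ⟨-, h, -⟩ | ⟨-, h, -⟩
    · show al (st' e) (p.2 e)
      rw [h]; exact (hp.2 e).2
    · show al (st' e) (p.2 e)
      rw [h]; trivial
    · show al (st' e) (p.2 e)
      rw [h]; trivial
  · unfold fsum
    apply Finset.sum_congr rfl
    intro v _
    congr 1
    apply Finset.prod_congr rfl
    intro e _
    rcases hz' e with h | ⟨h0, h, h1⟩ | ⟨h0, h, h1⟩
    · rw [h]
    · rw [h0, h]; exact om_one_full _ h1 _
    · rw [h0, h]; exact om_three_full _ h1 _

/-- GROW. -/
theorem grow {adj : Z → Z → Prop} (hsymm : ∀ x y, adj x y → adj y x)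
    {phi : T → Z → Fin 5} (hphi : ∀ e x y, adj x y → nr (phi e x) (phi e y))
    {D D' : Set Z} {st st' : T → Stat} (hD : Cn adj D) (hD' : Cn adj D') (hDD : D ⊆ D')
    (hnb : ∀ y ∈ D', ∃ x ∈ D, adj x y) (hv' : Valid phi D' st')
    (hst : ∀ e, st' e = st e ∨
      (st e = .one ∧ st' e = .full ∧ (∀ z ∈ D, (phi e z).val ≤ 2) ∧ ∃ z ∈ D', (phi e z).val ≤ 1) ∨
      (st e = .three ∧ st' e = .full ∧ (∀ z ∈ D, 2 ≤ (phi e z).val) ∧ ∃ z ∈ D', 3 ≤ (phi e z).val)) :
    LAM adj phi D st ⊆ LAM adj phi D' st' := by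
  classical
  -- intermediate statuses
  let sA : Finset T → T → Stat := fun A e => if e ∈ A then st' e else st e
  have hval : ∀ A, Valid phi D' (sA A) := by
    intro A e
    by_cases he : e ∈ A
    · have : sA A e = st' e := if_pos he
      rw [this]; exact hv' e
    · have : sA A e = st e := if_neg he
      rw [this]
      rcases hst e with h | ⟨h0, h1, h2, h3⟩ | ⟨h0, h1, h2, h3⟩
      · rw [← h]; exact hv' e
      · rw [h0]
        have hall : ∀ z ∈ D', (phi e z).val ≤ 3 := by
          intro z hz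
          obtain ⟨x, hx, hxz⟩ := hnb z hz
          have := hphi e x z hxz
          have h4 := h2 x hx
          have h5 := this.2
          omega
        refine ⟨hall, ?_⟩
        obtain ⟨z, hz⟩ := hD'.1
        exact ⟨z, hz, hall z hz⟩
      · rw [h0]
        have hall : ∀ z ∈ D', 1 ≤ (phi e z).val := by
          intro z hz
          obtain ⟨x, hx, hxz⟩ := hnb z hz
          have := hphi e x z hxz
          have h4 := h2 x hx
          have h5 := this.1
          omega
        refine ⟨hall, ?_⟩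
        obtain ⟨z, hz⟩ := hD'.1
        exact ⟨z, hz, hall z hz⟩
  have hne : ∀ A, (LAM adj phi D' (sA A)).Nonempty := fun A =>
    core adj hsymm phi hphi D' hD' (sA A) (hval A)
  have hsteps : ∀ A : Finset T, LAM adj phi D' st ⊆ LAM adj phi D' (sA A) := by
    intro A
    induction A using Finset.induction_on with
    | empty =>
      have : sA ∅ = st := by funext e; simp [sA]
      rw [this]
    | insert e A he ih =>
      refine ih.trans ?_
      obtain ⟨z₀, hz₀⟩ := hD'.1
      have hother : ∀ e', e' ≠ e → sA (insert e A) e' = sA A e' := by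
        intro e' hne
        simp [sA, hne]
      have h1 : sA (insert e A) e = st' e := if_pos (Finset.mem_insert_self _ _)
      have h2 : sA A e = st e := if_neg he
      rcases hst e with h | ⟨h3, h4, -, z, hz, h5⟩ | ⟨h3, h4, -, z, hz, h5⟩
      · apply LAM_stat (hne _) hz₀
        intro e'
        by_cases hee : e' = e
        · subst hee; left; rw [h1, h2, h]
        · left; exact hother e' hee
      · apply LAM_stat (hne _) hz
        intro e'
        by_cases hee : e' = e
        · subst hee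
          right; left
          exact ⟨h2.trans h3, h1.trans h4, h5⟩
        · left; exact hother e' hee
      · apply LAM_stat (hne _) hz
        intro e'
        by_cases hee : e' = e
        · subst hee
          right; right
          exact ⟨h2.trans h3, h1.trans h4, h5⟩
        · left; exact hother e' hee
  have hlast : sA Finset.univ = st' := by funext e; simp [sA]
  have hfirst : sA ∅ = st := by funext e; simp [sA]
  have h6 := hsteps Finset.univ
  rw [hlast] at h6
  refine (LAM_mono hD.1 hDD ?_).trans h6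
  rw [← hfirst]
  exact hne ∅

end

/-! Restrictions and sections. -/

section
variable {T₁ T₂ : Type} [Fintype T₁] [DecidableEq T₁] [Fintype T₂] [DecidableEq T₂]

/-- Forgetting coordinates. -/
lemma sum_forget (io : T₂ → T₁) (hio : Function.Injective io) (w₁ : T₁ → Fin 9 → ZMod 2) (w₂ : T₂ → Fin 9 → ZMod 2)
    (hw : ∀ e, w₁ (io e) = w₂ e) (htot : ∀ e, e ∉ Set.range io → ∑ a, w₁ e a = 1)
    (G : (T₂ → Fin 9) → ZMod 2) :
    ∑ v : T₁ → Fin 9, (∏ e, w₁ e (v e)) * G (fun e => v (io e)) = ∑ u : T₂ → Fin 9, (∏ e, w₂ e (u e)) * G u := by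
  classical
  have h1 : ∀ u : T₂ → Fin 9, (∏ e, w₂ e (u e)) =
      ∑ v ∈ (Finset.univ : Finset (T₁ → Fin 9)).filter (fun v => (fun e => v (io e)) = u), ∏ e, w₁ e (v e) := by
    intro u
    have h2 : (Finset.univ : Finset (T₁ → Fin 9)).filter (fun v => (fun e => v (io e)) = u) =
        Fintype.piFinset (fun e : T₁ => Finset.univ.filter (fun a : Fin 9 => ∀ e₂, io e₂ = e → a = u e₂)) := by
      ext v
      simp only [Finset.mem_filter, Finset.mem_univ, true_and, Fintype.mem_piFinset]
      constructor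
      · rintro rfl e e₂ rfl; rfl
      · intro h; funext e₂; exact h (io e₂) e₂ rfl
    rw [h2, ← Finset.prod_univ_sum]
    rw [← Finset.prod_subset (s₁ := Finset.univ.image io) (Finset.subset_univ _)]
    · rw [Finset.prod_image (fun a _ b _ h => hio h)]
      apply Finset.prod_congr rfl
      intro e _
      have : Finset.univ.filter (fun a : Fin 9 => ∀ e₂, io e₂ = io e → a = u e₂) = {u e} := by
        ext a
        simp only [Finset.mem_filter, Finset.mem_univ, true_and, Finset.mem_singleton]
        constructor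
        · intro h; exact h e rfl
        · rintro rfl e₂ h; rw [hio h]
      rw [this, Finset.sum_singleton, hw]
    · intro e _ he
      have he' : e ∉ Set.range io := by
        rintro ⟨e₂, rfl⟩
        exact he (Finset.mem_image_of_mem _ (Finset.mem_univ _))
      have : Finset.univ.filter (fun a : Fin 9 => ∀ e₂, io e₂ = e → a = u e₂) = Finset.univ := by
        ext a
        simp only [Finset.mem_filter, Finset.mem_univ, true_and, iff_true]
        intro e₂ h
        exact absurd ⟨e₂, h⟩ he'
      rw [this]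
      exact htot e he'
  calc ∑ v : T₁ → Fin 9, (∏ e, w₁ e (v e)) * G (fun e => v (io e))
      = ∑ u : T₂ → Fin 9, ∑ v ∈ (Finset.univ : Finset (T₁ → Fin 9)).filter (fun v => (fun e => v (io e)) = u),
          (∏ e, w₁ e (v e)) * G (fun e => v (io e)) := by
        rw [Finset.sum_fiberwise]
    _ = _ := by
        apply Finset.sum_congr rfl
        intro u _
        rw [h1 u, Finset.sum_mul]
        apply Finset.sum_congr rfl
        intro v hv
        rw [(Finset.mem_filter.1 hv).2]

/-- Adding coordinates. -/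
lemma sum_extend (io : T₁ → T₂) (hio : Function.Injective io) (w₁ : T₁ → Fin 9 → ZMod 2) (w₂ : T₂ → Fin 9 → ZMod 2)
    (hw : ∀ e, w₂ (io e) = w₁ e) (c : T₂ → Fin 9)
    (hc : ∀ e, e ∉ Set.range io → ∀ a, w₂ e a = if a = c e then 1 else 0)
    (ex : (T₁ → Fin 9) → (T₂ → Fin 9)) (hex : ∀ v e, ex v (io e) = v e)
    (hex' : ∀ v e, e ∉ Set.range io → ex v e = c e)
    (G : (T₂ → Fin 9) → ZMod 2) :
    ∑ v : T₁ → Fin 9, (∏ e, w₁ e (v e)) * G (ex v) = ∑ u : T₂ → Fin 9, (∏ e, w₂ e (u e)) * G u := by
  classical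
  have hinj : Function.Injective ex := by
    intro v v' h
    funext e
    rw [← hex v e, ← hex v' e, h]
  have h1 : ∑ u : T₂ → Fin 9, (∏ e, w₂ e (u e)) * G u =
      ∑ u ∈ Finset.univ.image ex, (∏ e, w₂ e (u e)) * G u := by
    symm
    apply Finset.sum_subset (Finset.subset_univ _)
    intro u _ hu
    have : ∃ e, e ∉ Set.range io ∧ u e ≠ c e := by
      by_contra hcon
      push Not at hcon
      apply hu
      rw [Finset.mem_image]
      refine ⟨fun e => u (io e), Finset.mem_univ _, ?_⟩
      funext e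
      by_cases he : e ∈ Set.range io
      · obtain ⟨e₁, rfl⟩ := he
        rw [hex]
      · rw [hex' _ e he, hcon e he]
    obtain ⟨e, he, hne⟩ := this
    rw [Finset.prod_eq_zero (Finset.mem_univ e) (by rw [hc e he, if_neg hne]), zero_mul]
  rw [h1, Finset.sum_image (fun a _ b _ h => hinj h)]
  apply Finset.sum_congr rfl
  intro v _
  congr 1
  rw [← Finset.prod_subset (s₁ := Finset.univ.image io) (Finset.subset_univ _)]
  · rw [Finset.prod_image (fun a _ b _ h => hio h)]
    apply Finset.prod_congr rfl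
    intro e _
    rw [hex, hw]
  · intro e _ he
    have he' : e ∉ Set.range io := by
      rintro ⟨e₁, rfl⟩
      exact he (Finset.mem_image_of_mem _ (Finset.mem_univ _))
    rw [hc e he', hex' v e he', if_pos rfl]

end

end Pool.Agent.Helper85.DT
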