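import Pool.Agent.Helper85.DT.Chain

/-!
Section 2 of the proof of S13177: position sets.
-/

set_option autoImplicit false
set_option linter.unusedSectionVars false

namespace Pool.Agent.Helper85.DT

open Set

/-- A position set. -/
structure PS : Type 1 where
  P : Type
  lo : LinearOrder P
  bot : P
  top : P
  s : P → P
  val : P → ℝ
  fl : ℝ → P
  bot_le : ∀ p, bot ≤ p
  le_top : ∀ p, p ≤ top
  lt_s : ∀ p, p < top → p < s p
  s_le : ∀ p q, p < q → s p ≤ q
  s_top : s top = top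
  val_mono : StrictMono val
  val_bot : val bot = 0
  val_top : val top = 1
  fl_iff : ∀ p t, 0 ≤ t → t ≤ 1 → (p ≤ fl t ↔ val p ≤ t)

attribute [instance] PS.lo

namespace PS

variable (S : PS)

lemma bot_lt_top : S.bot < S.top := by
  rw [← S.val_mono.lt_iff_lt, S.val_bot, S.val_top]; exact zero_lt_one

lemma le_s (p : S.P) : p ≤ S.s p := by
  rcases (S.le_top p).eq_or_lt with h | h
  · rw [h, S.s_top]
  · exact (S.lt_s p h).le

lemma s_mono {p q : S.P} (h : p ≤ q) : S.s p ≤ S.s q := by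
  rcases h.eq_or_lt with h | h
  · rw [h]
  · exact (S.s_le p q h).trans (S.le_s q)

lemma le_of_lt_s {p q : S.P} (h : q < S.s p) : q ≤ p := by
  by_contra hcon
  exact absurd (S.s_le p q (not_le.1 hcon)) (not_le.2 h)

lemma lt_top_of_lt_s {p : S.P} (h : p < S.s p) : p < S.top := by
  refine lt_of_le_of_ne (S.le_top p) ?_
  intro h1
  rw [h1, S.s_top] at h
  exact lt_irrefl _ h

/-- A limit position. -/
def IsLim (p : S.P) : Prop := p ≠ S.bot ∧ ∀ q, q < p → S.s q < p

lemma eq_s_of_not_lim {p : S.P} (h : ¬ S.IsLim p) : p = S.bot ∨ ∃ q, q < p ∧ S.s q = p := by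
  by_cases h1 : p = S.bot
  · exact Or.inl h1
  · right
    unfold IsLim at h
    push Not at h
    obtain ⟨q, hq, hq'⟩ := h h1
    exact ⟨q, hq, le_antisymm (S.s_le q p hq) hq'⟩

lemma not_lim_s {p : S.P} (h : p < S.s p) : ¬ S.IsLim (S.s p) := fun hl => lt_irrefl _ (hl.2 p h)

lemma fl_zero : S.fl 0 = S.bot := by
  apply le_antisymm _ (S.bot_le _)
  have h := (S.fl_iff (S.fl 0) 0 le_rfl zero_le_one).1 le_rfl
  rw [← S.val_mono.le_iff_le, S.val_bot]; exact h

lemma fl_one : S.fl 1 = S.top := by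
  apply le_antisymm (S.le_top _)
  rw [S.fl_iff _ _ zero_le_one le_rfl, S.val_top]

lemma val_nonneg (p : S.P) : 0 ≤ S.val p := by rw [← S.val_bot]; exact S.val_mono.monotone (S.bot_le p)

lemma val_le_one (p : S.P) : S.val p ≤ 1 := by rw [← S.val_top]; exact S.val_mono.monotone (S.le_top p)

lemma fl_val (p : S.P) : S.fl (S.val p) = p := by
  have h := S.fl_iff
  apply le_antisymm
  · have h1 := (h (S.fl (S.val p)) (S.val p) (S.val_nonneg p) (S.val_le_one p)).1 le_rfl
    exact S.val_mono.le_iff_le.1 h1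
  · exact (h p (S.val p) (S.val_nonneg p) (S.val_le_one p)).2 le_rfl

lemma val_fl_le {t : ℝ} (h0 : 0 ≤ t) (h1 : t ≤ 1) : S.val (S.fl t) ≤ t := (S.fl_iff _ t h0 h1).1 le_rfl

lemma fl_mono {t u : ℝ} (h0 : 0 ≤ t) (h1 : u ≤ 1) (h : t ≤ u) : S.fl t ≤ S.fl u := by
  rw [S.fl_iff _ u (h0.trans h) h1]
  exact (S.val_fl_le h0 (h.trans h1)).trans h

end PS

section
variable {X I : Type} (S : PS) (r : I → X → ℝ)

/-- The position of x for the letter i. -/
def ps (i : I) (x : X) : S.P := S.fl (r i x)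

/-- The cube C(x) for the finite set F. -/
def cube (F : Finset I) (x : X) : Set (I → S.P) :=
  {y | ∀ i ∈ F, y i = ps S r i x ∨ y i = S.s (ps S r i x)}

/-- The union of the cubes. -/
def BB (F : Finset I) : Set (I → S.P) := {y | ∃ x, y ∈ cube S r F x}

variable {S} {r} {F : Finset I}

lemma ps_mono (hr : ∀ i x, 0 ≤ r i x ∧ r i x ≤ 1) {i : I} {x y : X} (h : r i x ≤ r i y) :
    ps S r i x ≤ ps S r i y := S.fl_mono (hr i x).1 (hr i y).2 h

lemma ps_near_le (hr : ∀ i x, 0 ≤ r i x ∧ r i x ≤ 1) (i : I) (x₀ : X) :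
    ∃ e : ℝ, 0 < e ∧ ∀ x, r i x < r i x₀ + e → ps S r i x ≤ ps S r i x₀ := by
  by_cases h : ps S r i x₀ = S.top
  · exact ⟨1, one_pos, fun x _ => h ▸ S.le_top _⟩
  · have hlt : ps S r i x₀ < S.s (ps S r i x₀) := S.lt_s _ (lt_of_le_of_ne (S.le_top _) h)
    have h1 : r i x₀ < S.val (S.s (ps S r i x₀)) := by
      by_contra hcon
      have := (S.fl_iff _ _ (hr i x₀).1 (hr i x₀).2).2 (not_lt.1 hcon)
      exact absurd hlt (not_lt.2 this)
    refine ⟨S.val (S.s (ps S r i x₀)) - r i x₀, sub_pos.2 h1, fun x hx => ?_⟩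
    apply S.le_of_lt_s
    by_contra hcon
    have := (S.fl_iff _ _ (hr i x).1 (hr i x).2).1 (not_lt.1 hcon)
    linarith

lemma ps_near_ge (hr : ∀ i x, 0 ≤ r i x ∧ r i x ≤ 1) (i : I) (x₀ : X) (p : S.P) (hp : p < ps S r i x₀) :
    ∃ e : ℝ, 0 < e ∧ ∀ x, r i x₀ < r i x + e → p ≤ ps S r i x := by
  have h1 : S.val p < r i x₀ :=
    (S.val_mono hp).trans_le (S.val_fl_le (hr i x₀).1 (hr i x₀).2)
  refine ⟨r i x₀ - S.val p, sub_pos.2 h1, fun x hx => ?_⟩
  rw [ps, S.fl_iff _ _ (hr i x).1 (hr i x).2]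
  linarith

/-- Uniform versions for a finite set of letters. -/
lemma ps_near_leF (hr : ∀ i x, 0 ≤ r i x ∧ r i x ≤ 1) (F : Finset I) (x₀ : X) :
    ∃ e : ℝ, 0 < e ∧ ∀ x, ∀ i ∈ F, r i x < r i x₀ + e → ps S r i x ≤ ps S r i x₀ := by
  classical
  induction F using Finset.induction_on with
  | empty => exact ⟨1, one_pos, by simp⟩
  | insert j F hj ih =>
    obtain ⟨e, he, h⟩ := ih
    obtain ⟨e', he', h'⟩ := ps_near_le (S := S) hr j x₀
    refine ⟨min e e', lt_min he he', fun x i hi hx => ?_⟩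
    have h1 := min_le_left e e'
    have h2 := min_le_right e e'
    rcases Finset.mem_insert.1 hi with rfl | hi
    · exact h' x (by linarith)
    · exact h x i hi (by linarith)

lemma ps_near_geF (hr : ∀ i x, 0 ≤ r i x ∧ r i x ≤ 1) (F : Finset I) (x₀ : X) (p : I → S.P) :
    ∃ e : ℝ, 0 < e ∧ ∀ x, ∀ i ∈ F, p i < ps S r i x₀ → r i x₀ < r i x + e → p i ≤ ps S r i x := by
  classical
  induction F using Finset.induction_on with
  | empty => exact ⟨1, one_pos, by simp⟩
  | insert j F hj ih =>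
    obtain ⟨e, he, h⟩ := ih
    by_cases hp : p j < ps S r j x₀
    · obtain ⟨e', he', h'⟩ := ps_near_ge (S := S) hr j x₀ (p j) hp
      refine ⟨min e e', lt_min he he', fun x i hi hpi hx => ?_⟩
      have h1 := min_le_left e e'
      have h2 := min_le_right e e'
      rcases Finset.mem_insert.1 hi with rfl | hi
      · exact h' x (by linarith)
      · exact h x i hi hpi (by linarith)
    · refine ⟨e, he, fun x i hi hpi hx => ?_⟩
      rcases Finset.mem_insert.1 hi with rfl | hi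
      · exact absurd hpi hp
      · exact h x i hi hpi hx

/-- (P1) -/
lemma P1 (hr : ∀ i x, 0 ≤ r i x ∧ r i x ≤ 1) {x x' z : X} {y y' : I → S.P} (hy : y ∈ cube S r F x)
    (hy' : y' ∈ cube S r F x') (hyy : ∀ i ∈ F, y i ≤ y' i) (hz : ∀ i ∈ F, r i z = max (r i x) (r i x')) :
    y' ∈ cube S r F z := by
  intro i hi
  have hzi := hz i hi
  rcases le_total (r i x) (r i x') with h | h
  · rw [max_eq_right h] at hzi
    have : ps S r i z = ps S r i x' := by unfold ps; rw [hzi]
    rw [this]; exact hy' i hi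
  · rw [max_eq_left h] at hzi
    have h1 : ps S r i z = ps S r i x := by unfold ps; rw [hzi]
    rw [h1]
    rcases (ps_mono (S := S) hr h).eq_or_lt with h2 | h2
    · rw [← h2]; exact hy' i hi
    · left
      have h3 : y' i ≤ S.s (ps S r i x') := by
        rcases hy' i hi with h4 | h4
        · rw [h4]; exact S.le_s _
        · exact h4.le
      have h4 : S.s (ps S r i x') ≤ ps S r i x := S.s_le _ _ h2
      have h5 : ps S r i x ≤ y i := by
        rcases hy i hi with h6 | h6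
        · exact h6.ge
        · rw [h6]; exact S.le_s _
      exact le_antisymm (h3.trans h4) (h5.trans (hyy i hi))

lemma ps_le_cube {x : X} {y : I → S.P} (hy : y ∈ cube S r F x) {i : I} (hi : i ∈ F) :
    ps S r i x ≤ y i ∧ y i ≤ S.s (ps S r i x) := by
  rcases hy i hi with h | h
  · rw [h]; exact ⟨le_rfl, S.le_s _⟩
  · rw [h]; exact ⟨S.le_s _, le_rfl⟩

/-- The approach lemma: limits inside the cubes. -/
lemma approach' (hr : ∀ i x, 0 ≤ r i x ∧ r i x ≤ 1) (F : Finset I) (g : X) (l : I → S.P) (hl : l ∈ cube S r F g)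
    (p : I → S.P) (hp : ∀ i ∈ F, S.IsLim (l i) → p i < l i) :
    ∃ e : ℝ, 0 < e ∧ ∀ z, (∀ i ∈ F, ps S r i z ≤ ps S r i g) → (∀ i ∈ F, r i g < r i z + e) →
      (∀ i ∈ F, l i = ps S r i g ∨ ps S r i z = ps S r i g) →
      (fun i => min (l i) (S.s (ps S r i z))) ∈ cube S r F z ∧
      (∀ i ∈ F, ¬ S.IsLim (l i) → min (l i) (S.s (ps S r i z)) = l i) ∧
      (∀ i ∈ F, S.IsLim (l i) → p i < min (l i) (S.s (ps S r i z))) := by
  classical
  -- for a non limit l i choose a predecessor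
  have hch : ∀ i, ∃ q : S.P, (¬ S.IsLim (l i) → l i ≠ S.bot → q < l i ∧ S.s q = l i) ∧
      (S.IsLim (l i) → q = p i) := by
    intro i
    by_cases h : S.IsLim (l i)
    · exact ⟨p i, fun h' => absurd h h', fun _ => rfl⟩
    · rcases S.eq_s_of_not_lim h with h1 | ⟨q, h1, h2⟩
      · exact ⟨p i, fun _ h' => absurd h1 h', fun h' => absurd h' h⟩
      · exact ⟨q, fun _ _ => ⟨h1, h2⟩, fun h' => absurd h' h⟩
  choose q hq using hch
  obtain ⟨e, he, hge⟩ := ps_near_geF (S := S) hr F g q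
  refine ⟨e, he, fun z hmem hclose hor => ?_⟩
  refine ⟨?_, ?_, ?_⟩
  · intro i hi
    show min (l i) (S.s (ps S r i z)) = ps S r i z ∨ min (l i) (S.s (ps S r i z)) = S.s (ps S r i z)
    rcases le_or_gt (S.s (ps S r i z)) (l i) with h | h
    · right; exact min_eq_right h
    · left
      rw [min_eq_left h.le]
      have h1 := S.le_of_lt_s h
      exact le_antisymm h1 ((hmem i hi).trans (ps_le_cube hl hi).1)
  · intro i hi hnl
    apply min_eq_left
    by_cases hb : l i = S.bot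
    · rw [hb]; exact S.bot_le _
    · obtain ⟨h1, h2⟩ := (hq i).1 hnl hb
      rcases hor i hi with h3 | h3
      · have h4 : q i < ps S r i g := h3 ▸ h1
        have h5 := hge z i hi h4 (hclose i hi)
        rw [← h2]; exact S.s_mono h5
      · rw [h3]; exact (ps_le_cube hl hi).2
  · intro i hi hlim
    have h1 := hp i hi hlim
    have h2 : q i = p i := (hq i).2 hlim
    have h3 : l i = ps S r i g := by
      rcases hl i hi with h4 | h4
      · exact h4
      · rcases (S.le_s (ps S r i g)).eq_or_lt with h5 | h5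
        · rw [h4, ← h5]
        · exfalso
          exact S.not_lim_s h5 (h4 ▸ hlim)
    have h4 : q i < ps S r i g := by rw [h2, ← h3]; exact h1
    have h5 := hge z i hi h4 (hclose i hi)
    rw [h2] at h5 h4
    apply lt_min h1
    have h6 : p i < S.top := h4.trans_le (S.le_top _)
    exact (S.lt_s _ h6).trans_le (S.s_mono h5)

/-- The approach lemma: limits from below inside the cubes. -/
lemma approach (hr : ∀ i x, 0 ≤ r i x ∧ r i x ≤ 1) (F : Finset I) (g : X) (l : I → S.P) (hl : l ∈ cube S r F g)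
    (p : I → S.P) (hp : ∀ i ∈ F, S.IsLim (l i) → p i < l i) :
    ∃ e : ℝ, 0 < e ∧ ∀ z, leF r F z g → (∀ i ∈ F, r i g < r i z + e) →
      (∀ i ∈ F, l i = ps S r i g ∨ ps S r i z = ps S r i g) →
      (fun i => min (l i) (S.s (ps S r i z))) ∈ cube S r F z ∧
      (∀ i ∈ F, ¬ S.IsLim (l i) → min (l i) (S.s (ps S r i z)) = l i) ∧
      (∀ i ∈ F, S.IsLim (l i) → p i < min (l i) (S.s (ps S r i z))) := by
  obtain ⟨e, he, h⟩ := approach' hr F g l hl p hp
  exact ⟨e, he, fun z hzg => h z fun i hi => ps_mono hr (hzg i hi)⟩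

/-- w is near y (from below, beyond p at the limit coordinates). -/
def NearP (S : PS) (F : Finset I) (p w y : I → S.P) : Prop :=
  ∀ i ∈ F, w i ≤ y i ∧ (w i = y i ∨ (S.IsLim (y i) ∧ p i < w i))

lemma nearP_of {p l : I → S.P} {z : X}
    (h2 : ∀ i ∈ F, ¬ S.IsLim (l i) → min (l i) (S.s (ps S r i z)) = l i)
    (h3 : ∀ i ∈ F, S.IsLim (l i) → p i < min (l i) (S.s (ps S r i z))) :
    NearP S F p (fun i => min (l i) (S.s (ps S r i z))) l := by
  intro i hi
  refine ⟨min_le_left _ _, ?_⟩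
  by_cases h : S.IsLim (l i)
  · exact Or.inr ⟨h, h3 i hi h⟩
  · exact Or.inl (h2 i hi h)

/-- Topological form for l = f x₀: near x₀ the set K(f x₀) can be replaced by K(w), w in C(x), w <= s f x. -/
lemma near_top [TopologicalSpace X] (hr : ∀ i x, 0 ≤ r i x ∧ r i x ≤ 1) (hc : ∀ i, Continuous (r i))
    (F : Finset I) (x₀ : X) (p : I → S.P) (hp : ∀ i ∈ F, S.IsLim (ps S r i x₀) → p i < ps S r i x₀) :
    ∀ᶠ x in nhds x₀, (∀ i ∈ F, ps S r i x ≤ ps S r i x₀) ∧
      (fun i => min (ps S r i x₀) (S.s (ps S r i x))) ∈ cube S r F x ∧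
      NearP S F p (fun i => min (ps S r i x₀) (S.s (ps S r i x))) (fun i => ps S r i x₀) := by
  classical
  obtain ⟨e, he, h⟩ := approach' hr F x₀ (fun i => ps S r i x₀) (fun i _ => Or.inl rfl) p hp
  obtain ⟨e', he', h'⟩ := ps_near_leF (S := S) hr F x₀
  have hnear : ∀ᶠ x in nhds x₀, ∀ i ∈ F, |r i x - r i x₀| < min e e' := by
    rw [Filter.eventually_all_finset]
    intro i _
    have h1 : Filter.Tendsto (fun x => r i x) (nhds x₀) (nhds (r i x₀)) := (hc i).continuousAt
    have h2 := (Metric.tendsto_nhds.1 h1) (min e e') (lt_min he he')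
    simpa [Real.dist_eq] using h2
  filter_upwards [hnear] with x hx
  have h1 : ∀ i ∈ F, ps S r i x ≤ ps S r i x₀ := by
    intro i hi
    apply h' x i hi
    have := (abs_lt.1 (hx i hi)).2
    have := min_le_right e e'
    linarith
  obtain ⟨h2, h3, h4⟩ := h x h1 (fun i hi => by
    have := (abs_lt.1 (hx i hi)).1
    have := min_le_left e e'
    linarith) (fun i _ => Or.inl rfl)
  exact ⟨h1, h2, nearP_of h3 h4⟩

/-- (CI) Monotone on cubes and left limits => monotone. -/
theorem cubes_monotone [TopologicalSpace X] [PreconnectedSpace X] [CompactSpace X]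
    (hr : ∀ i x, 0 ≤ r i x ∧ r i x ≤ 1)
    (hc : ∀ i, Continuous (r i)) (hl : Lami r) {α : Type} [Preorder α] (Phi : (I → S.P) → α)
    (hdep : ∀ y y', (∀ i ∈ F, y i = y' i) → Phi y = Phi y')
    (ha : ∀ x, ∀ y ∈ cube S r F x, ∀ y' ∈ cube S r F x, (∀ i ∈ F, y i ≤ y' i) → Phi y ≤ Phi y')
    (hb : ∀ y ∈ BB S r F, ∃ p : I → S.P, (∀ i ∈ F, S.IsLim (y i) → p i < y i) ∧
      ∀ w ∈ BB S r F, (∀ i ∈ F, w i ≤ y i) → (∀ i ∈ F, ¬ S.IsLim (y i) → w i = y i) →
        (∀ i ∈ F, S.IsLim (y i) → p i < w i) → Phi w = Phi y) :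
    ∀ y ∈ BB S r F, ∀ y' ∈ BB S r F, (∀ i ∈ F, y i ≤ y' i) → Phi y ≤ Phi y' := by
  rintro y ⟨x, hy⟩ y' ⟨x'', hy''⟩ hyy
  obtain ⟨x', hz⟩ := F2 (F := F) hc hl x x''
  have hy' : y' ∈ cube S r F x' := P1 hr hy hy'' hyy hz
  have hxx : leF r F x x' := fun i hi => by rw [hz i hi]; exact le_max_left _ _
  -- the comparison function
  let l : X → I → S.P := fun z i => max (ps S r i z) (y i)
  have hlmem : ∀ z, leF r F x z → l z ∈ cube S r F z := by
    intro z hxz i hi
    show max (ps S r i z) (y i) = ps S r i z ∨ max (ps S r i z) (y i) = S.s (ps S r i z)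
    rcases (ps_mono (S := S) hr (hxz i hi)).eq_or_lt with h | h
    · have : y i = ps S r i z ∨ y i = S.s (ps S r i z) := by rw [← h]; exact hy i hi
      rcases this with h1 | h1
      · left; rw [h1, max_self]
      · right; rw [h1]; exact max_eq_right (S.le_s _)
    · left
      apply max_eq_left
      exact (ps_le_cube hy hi).2.trans (S.s_le _ _ h)
  have hlx : ∀ i ∈ F, l x i = y i := fun i hi => max_eq_right (ps_le_cube hy hi).1
  have key : Phi y ≤ Phi (l x') := by
    refine chain_induction (F := F) hc hl hxx (fun z => Phi y ≤ Phi (l z)) ?_ ?_ ?_ ?_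
    · intro z z' h1 h2 h3
      have : Phi (l z) = Phi (l z') := by
        apply hdep
        intro i hi
        have : r i z = r i z' := le_antisymm (h1 i hi) (h2 i hi)
        show max (ps S r i z) (y i) = max (ps S r i z') (y i)
        unfold ps; rw [this]
      rw [← this]; exact h3
    · rw [hdep (l x) y hlx]
    · intro g hxg hgx' hngx
      have hlg := hlmem g hxg
      obtain ⟨p, hp1, hp2⟩ := hb (l g) ⟨g, hlg⟩
      obtain ⟨e, he, happ⟩ := approach hr F g (l g) hlg p hp1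
      refine ⟨e, he, fun z hxz hzg hngz hclose hTh => ?_⟩
      have hor : ∀ i ∈ F, l g i = ps S r i g ∨ ps S r i z = ps S r i g := by
        intro i hi
        rcases le_or_gt (y i) (ps S r i g) with h | h
        · left; exact max_eq_left h
        · right
          -- y i = s (ps x), ps x = ps g
          have h1 := (ps_le_cube hy hi).2
          have h2 : ps S r i g ≤ ps S r i x := S.le_of_lt_s (h.trans_le h1)
          apply le_antisymm (ps_mono hr (hzg i hi))
          exact h2.trans (ps_mono hr (hxz i hi))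
      obtain ⟨h1, h2, h3⟩ := happ z hzg hclose hor
      have hw : Phi (fun i => min (l g i) (S.s (ps S r i z))) = Phi (l g) :=
        hp2 _ ⟨z, h1⟩ (fun i hi => min_le_left _ _) h2 h3
      rw [← hw]
      refine le_trans hTh (ha z (l z) (hlmem z hxz) _ h1 fun i hi => ?_)
      apply le_min
      · exact max_le_max (ps_mono hr (hzg i hi)) le_rfl
      · exact (ps_le_cube (hlmem z hxz) hi).2
    · intro g hxg hgx' hTh
      obtain ⟨e, he, hnear⟩ := ps_near_leF (S := S) hr F g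
      refine ⟨e, he, fun z hgz hzx' hclose => ?_⟩
      have : Phi (l g) = Phi (l z) := by
        apply hdep
        intro i hi
        have : ps S r i g = ps S r i z := le_antisymm (ps_mono hr (hgz i hi)) (hnear z i hi (hclose i hi))
        show max (ps S r i g) (y i) = max (ps S r i z) (y i)
        rw [this]
      rw [← this]; exact hTh
  refine key.trans (ha x' _ (hlmem x' hxx) y' hy' fun i hi => ?_)
  exact max_le (ps_le_cube hy' hi).1 (hyy i hi)

/-- (CI) with NearP. -/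
theorem cubes_monotone' [TopologicalSpace X] [PreconnectedSpace X] [CompactSpace X]
    (hr : ∀ i x, 0 ≤ r i x ∧ r i x ≤ 1)
    (hc : ∀ i, Continuous (r i)) (hl : Lami r) {α : Type} [Preorder α] (Phi : (I → S.P) → α)
    (hdep : ∀ y y', (∀ i ∈ F, y i = y' i) → Phi y = Phi y')
    (ha : ∀ x, ∀ y ∈ cube S r F x, ∀ y' ∈ cube S r F x, (∀ i ∈ F, y i ≤ y' i) → Phi y ≤ Phi y')
    (hb : ∀ y ∈ BB S r F, ∃ p : I → S.P, (∀ i ∈ F, S.IsLim (y i) → p i < y i) ∧
      ∀ w ∈ BB S r F, NearP S F p w y → Phi w = Phi y) :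
    ∀ y ∈ BB S r F, ∀ y' ∈ BB S r F, (∀ i ∈ F, y i ≤ y' i) → Phi y ≤ Phi y' := by
  apply cubes_monotone hr hc hl Phi hdep ha
  intro y hy
  obtain ⟨p, hp, h⟩ := hb y hy
  refine ⟨p, hp, fun w hw h1 h2 h3 => h w hw fun i hi => ⟨h1 i hi, ?_⟩⟩
  by_cases hlim : S.IsLim (y i)
  · exact Or.inr ⟨hlim, h3 i hi hlim⟩
  · exact Or.inl (h2 i hi hlim)

end

end Pool.Agent.Helper85.DT
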