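import Pool.Agent.Helper85.DT.Pos

/-!
Section 2 of the proof of S13177: the base position set and refinements.
-/

set_option autoImplicit false
set_option linter.unusedSectionVars false

namespace Pool.Agent.Helper85.DT

open Set

/-- The base position set: Bool. -/
noncomputable def basePS : PS where
  P := Bool
  lo := inferInstance
  bot := false
  top := true
  s := fun _ => true
  val := fun b => if b then 1 else 0
  fl := fun t => decide (1 ≤ t)
  bot_le := by intro p; cases p <;> simp
  le_top := by intro p; cases p <;> simp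
  lt_s := by intro p h; exact h
  s_le := by
    intro p q h
    cases q
    · exact absurd h (by cases p <;> decide)
    · exact le_rfl
  s_top := rfl
  val_mono := by
    intro a b h
    cases a
    · cases b
      · exact absurd h (lt_irrefl _)
      · simp
    · cases b
      · exact absurd h (by decide)
      · exact absurd h (lt_irrefl _)
  val_bot := by simp
  val_top := by simp
  fl_iff := by
    intro p t h0 h1
    cases p
    · simp [h0]
    · constructor
      · intro h
        have : decide (1 ≤ t) = true := le_antisymm (by cases (decide (1 ≤ t)) <;> decide) h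
        simpa using this
      · intro h
        have : decide (1 ≤ t) = true := by simpa using h
        rw [this]

namespace PS

variable (S : PS)

/-- The points of the refinement. -/
def RP : Type := {p : S.P ×ₗ ℕ // (ofLex p).1 = S.top → (ofLex p).2 = 0}

noncomputable instance : LinearOrder S.RP := by unfold RP; infer_instance

variable {S}

/-- Base. -/
def b (p : S.RP) : S.P := (ofLex p.1).1

/-- Digit. -/
def d (p : S.RP) : ℕ := (ofLex p.1).2

/-- Constructor. -/
def mkp (u : S.P) (n : ℕ) (h : u = S.top → n = 0) : S.RP := ⟨toLex (u, n), h⟩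

@[simp] lemma b_mkp (u : S.P) (n : ℕ) (h : u = S.top → n = 0) : b (mkp u n h) = u := rfl

@[simp] lemma d_mkp (u : S.P) (n : ℕ) (h : u = S.top → n = 0) : d (mkp u n h) = n := rfl

lemma d_top (p : S.RP) (h : b p = S.top) : d p = 0 := p.2 h

lemma ext' {p q : S.RP} (h : b p = b q) (h' : d p = d q) : p = q := by
  apply Subtype.ext
  show p.1 = q.1
  have : ofLex p.1 = ofLex q.1 := Prod.ext h h'
  exact ofLex_inj.1 this

lemma le_iff' (p q : S.RP) : p ≤ q ↔ b p < b q ∨ (b p = b q ∧ d p ≤ d q) := by
  have h1 : p ≤ q ↔ p.1 ≤ q.1 := Iff.rfl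
  rw [h1, Prod.Lex.le_iff]
  rfl

lemma lt_iff'' (p q : S.RP) : p < q ↔ b p < b q ∨ (b p = b q ∧ d p < d q) := by
  have h1 : p < q ↔ p.1 < q.1 := Iff.rfl
  rw [h1, Prod.Lex.lt_iff]
  rfl

lemma b_mono {p q : S.RP} (h : p ≤ q) : b p ≤ b q := by
  rcases (le_iff' p q).1 h with h | h
  · exact h.le
  · exact h.1.le

/-- The value of the point with base u and digit n. -/
noncomputable def vv (u : S.P) (n : ℕ) : ℝ := S.val u + (S.val (S.s u) - S.val u) * (1 - (1 / 2) ^ n)

lemma vv_zero (u : S.P) : vv u 0 = S.val u := by simp [vv]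

private lemma gap_nonneg (u : S.P) : 0 ≤ S.val (S.s u) - S.val u :=
  sub_nonneg.2 (S.val_mono.monotone (S.le_s u))

private lemma gap_pos {u : S.P} (h : u ≠ S.top) : 0 < S.val (S.s u) - S.val u :=
  sub_pos.2 (S.val_mono (S.lt_s u (lt_of_le_of_ne (S.le_top u) h)))

lemma vv_mono (u : S.P) {n m : ℕ} (h : n ≤ m) : vv u n ≤ vv u m := by
  unfold vv
  have h1 : ((1 : ℝ) / 2) ^ m ≤ (1 / 2) ^ n := pow_le_pow_of_le_one (by norm_num) (by norm_num) h
  have := mul_le_mul_of_nonneg_left (show 1 - ((1 : ℝ) / 2) ^ n ≤ 1 - (1 / 2) ^ m by linarith) (gap_nonneg u)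
  linarith

lemma vv_lt {u : S.P} (hu : u ≠ S.top) {n m : ℕ} (h : n < m) : vv u n < vv u m := by
  unfold vv
  have h1 : ((1 : ℝ) / 2) ^ m < (1 / 2) ^ n := pow_lt_pow_right_of_lt_one₀ (by norm_num) (by norm_num) h
  have := mul_lt_mul_of_pos_left (show 1 - ((1 : ℝ) / 2) ^ n < 1 - (1 / 2) ^ m by linarith) (gap_pos hu)
  linarith

lemma vv_ge (u : S.P) (n : ℕ) : S.val u ≤ vv u n := by
  rw [← vv_zero u]; exact vv_mono u (Nat.zero_le n)

lemma vv_le (u : S.P) (n : ℕ) : vv u n ≤ S.val (S.s u) := by
  unfold vv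
  have h1 : (0 : ℝ) < (1 / 2) ^ n := by positivity
  have := mul_le_mul_of_nonneg_left (show 1 - ((1 : ℝ) / 2) ^ n ≤ 1 by linarith) (gap_nonneg u)
  linarith

lemma vv_lt' {u : S.P} (hu : u ≠ S.top) (n : ℕ) : vv u n < S.val (S.s u) :=
  (vv_lt hu (Nat.lt_succ_self n)).trans_le (vv_le u (n + 1))

lemma exists_vv {u : S.P} {t : ℝ} (ht : t < S.val (S.s u)) : ∃ n, t < vv u (n + 1) := by
  by_cases h : t < S.val u
  · exact ⟨0, h.trans_le (vv_ge u _)⟩
  · push Not at h
    have hg : 0 < S.val (S.s u) - S.val u := by linarith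
    obtain ⟨n, hn⟩ := exists_pow_lt_of_lt_one (show 0 < (S.val (S.s u) - t) / (S.val (S.s u) - S.val u) from
      div_pos (by linarith) hg) (show (1 / 2 : ℝ) < 1 by norm_num)
    refine ⟨n, ?_⟩
    have h1 : ((1 : ℝ) / 2) ^ (n + 1) ≤ (1 / 2) ^ n := pow_le_pow_of_le_one (by norm_num) (by norm_num) (Nat.le_succ n)
    have h2 : ((1 : ℝ) / 2) ^ (n + 1) * (S.val (S.s u) - S.val u) < S.val (S.s u) - t := by
      rw [← lt_div_iff₀ hg]
      exact h1.trans_lt hn
    unfold vv
    nlinarith

open Classical in
/-- The digit of t over u. -/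
noncomputable def dig (u : S.P) (t : ℝ) : ℕ := if h : ∃ n, t < vv u (n + 1) then Nat.find h else 0

lemma dig_spec {u : S.P} {t : ℝ} (ht : t < S.val (S.s u)) : t < vv u (dig u t + 1) := by
  classical
  have h := exists_vv ht
  unfold dig
  rw [dif_pos h]
  exact Nat.find_spec h

lemma dig_le {u : S.P} {t : ℝ} (h0 : S.val u ≤ t) : vv u (dig u t) ≤ t := by
  classical
  unfold dig
  split_ifs with h
  · rcases Nat.eq_zero_or_pos (Nat.find h) with h1 | h1
    · rw [h1, vv_zero]; exact h0
    · have := Nat.find_min h (Nat.sub_lt h1 one_pos)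
      have h2 : Nat.find h - 1 + 1 = Nat.find h := Nat.succ_pred_eq_of_pos h1
      rw [h2] at this
      exact not_lt.1 this
  · rw [vv_zero]; exact h0

variable (S)

open Classical in
/-- The refinement of a position set. -/
noncomputable def refine : PS where
  P := S.RP
  lo := inferInstance
  bot := mkp S.bot 0 (fun _ => rfl)
  top := mkp S.top 0 (fun _ => rfl)
  s := fun p => if h : b p = S.top then p else mkp (b p) (d p + 1) (fun h' => absurd h' h)
  val := fun p => vv (b p) (d p)
  fl := fun t => if h : S.fl t = S.top then mkp S.top 0 (fun _ => rfl) else mkp (S.fl t) (dig (S.fl t) t) (fun h' => absurd h' h)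
  bot_le := by
    intro p
    rw [le_iff']
    rcases (S.bot_le (b p)).eq_or_lt with h | h
    · right; exact ⟨h, Nat.zero_le _⟩
    · left; exact h
  le_top := by
    intro p
    rw [le_iff']
    rcases (S.le_top (b p)).eq_or_lt with h | h
    · right; exact ⟨h, (d_top p h).le⟩
    · left; exact h
  lt_s := by
    intro p hp
    have h : b p ≠ S.top := by
      intro h
      have : p = mkp S.top 0 (fun _ => rfl) := ext' h (d_top p h)
      exact absurd this hp.ne
    rw [dif_neg h, lt_iff'']
    right
    exact ⟨rfl, Nat.lt_succ_self _⟩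
  s_le := by
    intro p q hpq
    by_cases h : b p = S.top
    · rw [dif_pos h]; exact hpq.le
    · rw [dif_neg h, le_iff']
      rcases (lt_iff'' p q).1 hpq with h1 | h1
      · left; exact h1
      · right; exact ⟨h1.1, h1.2⟩
  s_top := by rw [dif_pos (b_mkp _ _ _)]
  val_mono := by
    intro p q hpq
    rcases (lt_iff'' p q).1 hpq with h1 | h1
    · have hp : b p ≠ S.top := (h1.trans_le (S.le_top _)).ne
      exact ((vv_lt' hp (d p)).trans_le (S.val_mono.monotone (S.s_le _ _ h1))).trans_le (vv_ge _ _)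
    · have hq : b q ≠ S.top := by
        intro h
        have := d_top q h
        omega
      show vv (b p) (d p) < vv (b q) (d q)
      rw [h1.1]
      exact vv_lt hq h1.2
  val_bot := by
    show vv S.bot 0 = 0
    rw [vv_zero, S.val_bot]
  val_top := by
    show vv S.top 0 = 1
    rw [vv_zero, S.val_top]
  fl_iff := by
    intro p t h0 h1
    by_cases h : S.fl t = S.top
    · rw [dif_pos h]
      have ht : 1 ≤ t := by
        have := S.val_fl_le h0 h1
        rwa [h, S.val_top] at this
      constructor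
      · intro _
        exact ((vv_le _ _).trans (S.val_le_one _)).trans ht
      · intro _
        rw [le_iff']
        rcases (S.le_top (b p)).eq_or_lt with h2 | h2
        · right; exact ⟨h2, (d_top p h2).le⟩
        · left; exact h2
    · rw [dif_neg h]
      have hlt : S.fl t < S.s (S.fl t) := S.lt_s _ (lt_of_le_of_ne (S.le_top _) h)
      have ht : t < S.val (S.s (S.fl t)) := by
        by_contra hcon
        have := (S.fl_iff _ _ h0 h1).2 (not_lt.1 hcon)
        exact absurd hlt (not_lt.2 this)
      constructor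
      · intro hp
        rcases (le_iff' p _).1 hp with h2 | h2
        · rw [b_mkp] at h2
          exact ((vv_le _ _).trans (S.val_mono.monotone (S.s_le _ _ h2))).trans (S.val_fl_le h0 h1)
        · rw [b_mkp, d_mkp] at h2
          show vv (b p) (d p) ≤ t
          rw [h2.1]
          exact (vv_mono _ h2.2).trans (dig_le (S.val_fl_le h0 h1))
      · intro hp
        by_contra hcon
        have h3 := (lt_iff'' _ p).1 (not_le.1 hcon)
        rw [b_mkp, d_mkp] at h3
        rcases h3 with h3 | h3
        · have := (S.val_mono.monotone (S.s_le _ _ h3)).trans (vv_ge (b p) (d p))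
          exact absurd (this.trans hp) (not_le.2 ht)
        · have h4 : vv (S.fl t) (dig (S.fl t) t + 1) ≤ vv (b p) (d p) := by
            rw [← h3.1]; exact vv_mono _ h3.2
          exact absurd (h4.trans hp) (not_le.2 (dig_spec ht))

variable {S}

/-- Subtraction of digits. -/
def sub (p : S.RP) (j : ℕ) : S.RP := mkp (b p) (d p - j) (fun h => by rw [d_top p h, Nat.zero_sub])

@[simp] lemma b_sub (p : S.RP) (j : ℕ) : b (sub p j) = b p := rfl

@[simp] lemma d_sub (p : S.RP) (j : ℕ) : d (sub p j) = d p - j := rfl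

/-- The rounded position. -/
def cc (p : S.RP) : S.P := if d p = 0 then b p else S.s (b p)

lemma b_le_cc (p : S.RP) : b p ≤ cc p := by
  unfold cc; split_ifs
  · exact le_rfl
  · exact S.le_s _

lemma cc_le (p : S.RP) : cc p ≤ S.s (b p) := by
  unfold cc; split_ifs
  · exact S.le_s _
  · exact le_rfl

lemma cc_mono {p q : S.RP} (h : p ≤ q) : cc p ≤ cc q := by
  rcases (le_iff' p q).1 h with h1 | h1
  · exact ((cc_le p).trans (S.s_le _ _ h1)).trans (b_le_cc q)
  · unfold cc
    by_cases hq : d q = 0
    · have hp : d p = 0 := by omega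
      rw [if_pos hp, if_pos hq]; exact h1.1.le
    · rw [if_neg hq]
      rw [← h1.1]
      exact cc_le p

lemma sub_mono {p q : S.RP} (h : p ≤ q) (j : ℕ) : sub p j ≤ sub q j := by
  rw [le_iff']
  rcases (le_iff' p q).1 h with h1 | h1
  · left; exact h1
  · right; exact ⟨h1.1, Nat.sub_le_sub_right h1.2 j⟩

lemma sub_le_sub (p : S.RP) {j k : ℕ} (h : j ≤ k) : sub p k ≤ sub p j := by
  rw [le_iff']
  right; exact ⟨rfl, Nat.sub_le_sub_left h _⟩

lemma sub_zero' (p : S.RP) : sub p 0 = p := ext' rfl (Nat.sub_zero _)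

lemma sub_sub' (p : S.RP) (j k : ℕ) : sub (sub p j) k = sub p (j + k) := ext' rfl (Nat.sub_sub _ _ _)

lemma cc_sub_of_le (p : S.RP) {j : ℕ} (h : d p ≤ j) : cc (sub p j) = b p := by
  unfold cc
  rw [d_sub, Nat.sub_eq_zero_of_le h, if_pos rfl, b_sub]

lemma sub_s (p : (S.refine).P) (j : ℕ) : sub ((S.refine).s p) (j + 1) = sub p j := by
  classical
  show sub (if h : b p = S.top then p else mkp (b p) (d p + 1) (fun h' => absurd h' h)) (j + 1) = sub p j
  split_ifs with h
  · refine ext' (S := S) (by rw [b_sub, b_sub]) ?_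
    rw [d_sub, d_sub, d_top p h]; simp
  · refine ext' (S := S) (by rw [b_sub, b_sub, b_mkp]) ?_
    rw [d_sub, d_sub, d_mkp]; omega

lemma b_s (p : (S.refine).P) : b ((S.refine).s p) = b p := by
  classical
  show b (if h : b p = S.top then p else mkp (b p) (d p + 1) (fun h' => absurd h' h)) = b p
  split_ifs with h
  · rfl
  · rfl

lemma b_bot : b (S.refine).bot = S.bot := rfl

lemma b_top : b (S.refine).top = S.top := rfl

lemma le_iffR (p q : (S.refine).P) : p ≤ q ↔ b p < b q ∨ (b p = b q ∧ d p ≤ d q) := le_iff' (S := S) p q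

lemma lt_iffR (p q : (S.refine).P) : p < q ↔ b p < b q ∨ (b p = b q ∧ d p < d q) := lt_iff'' (S := S) p q

lemma d_s (p : (S.refine).P) (h : b p ≠ S.top) : d ((S.refine).s p) = d p + 1 := by
  classical
  show d (if h : b p = S.top then p else mkp (b p) (d p + 1) (fun h' => absurd h' h)) = d p + 1
  rw [dif_neg h, d_mkp]

/-- Limits of the refinement: digit zero and base not bot. -/
lemma isLim_refine (p : (S.refine).P) : (S.refine).IsLim p ↔ d p = 0 ∧ b p ≠ S.bot := by
  classical
  constructor
  · rintro ⟨h1, h2⟩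
    by_cases hd : d p = 0
    · refine ⟨hd, fun hb => h1 ?_⟩
      exact ext' hb hd
    · exfalso
      have hbt : b p ≠ S.top := fun h => hd (d_top p h)
      have hlt : (mkp (b p) (d p - 1) (fun h' => absurd h' hbt) : S.RP) < p := by
        rw [lt_iff'']
        right; exact ⟨rfl, by rw [d_mkp]; omega⟩
      have h3 := h2 _ hlt
      have h4 : (S.refine).s (mkp (b p) (d p - 1) (fun h' => absurd h' hbt)) = p := by
        show (if h : b (mkp (b p) (d p - 1) (fun h' => absurd h' hbt)) = S.top then _ else _) = p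
        rw [dif_neg (by rw [b_mkp]; exact hbt)]
        refine ext' (S := S) (by rw [b_mkp, b_mkp]) ?_
        rw [d_mkp, d_mkp]; omega
      rw [h4] at h3
      exact lt_irrefl _ h3
  · rintro ⟨h1, h2⟩
    refine ⟨fun h => h2 (by rw [h]; rfl), fun q hq => ?_⟩
    have h3 : b q < b p := by
      rcases (lt_iff'' q p).1 hq with h4 | h4
      · exact h4
      · exfalso; omega
    refine (lt_iff'' (S := S) ((S.refine).s q) p).2 (Or.inl ?_)
    rw [b_s]; exact h3

end PS

section
variable {X I : Type} {S : PS} {r : I → X → ℝ} {F : Finset I}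

lemma b_ps (i : I) (x : X) : PS.b (ps S.refine r i x) = ps S r i x := by
  classical
  show PS.b (if h : S.fl (r i x) = S.top then PS.mkp S.top 0 (fun _ => rfl) else
    PS.mkp (S.fl (r i x)) (PS.dig (S.fl (r i x)) (r i x)) (fun h' => absurd h' h)) = S.fl (r i x)
  split_ifs with h
  · rw [PS.b_mkp, h]
  · rw [PS.b_mkp]

lemma b_cube {x : X} {y : I → (S.refine).P} (hy : y ∈ cube S.refine r F x) {i : I} (hi : i ∈ F) :
    PS.b (y i) = ps S r i x := by
  rcases hy i hi with h | h
  · rw [h, b_ps]
  · rw [h, PS.b_s, b_ps]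

lemma cc_cube {x : X} {y : I → (S.refine).P} (hy : y ∈ cube S.refine r F x) (j : ℕ) :
    (fun i => PS.cc (PS.sub (y i) j)) ∈ cube S r F x := by
  intro i hi
  show PS.cc (PS.sub (y i) j) = _ ∨ PS.cc (PS.sub (y i) j) = _
  unfold PS.cc
  rw [PS.b_sub, b_cube hy hi]
  split_ifs
  · exact Or.inl rfl
  · exact Or.inr rfl

lemma bb_cube {x : X} {y : I → (S.refine).P} (hy : y ∈ cube S.refine r F x) :
    (fun i => PS.b (y i)) ∈ cube S r F x := by
  intro i hi
  left; exact b_cube hy hi

lemma ps_zero {i : I} {x : X} (h : r i x = 0) : ps S r i x = S.bot := by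
  unfold ps; rw [h, S.fl_zero]

lemma ps_one {i : I} {x : X} (h : r i x = 1) : ps S r i x = S.top := by
  unfold ps; rw [h, S.fl_one]

end

end Pool.Agent.Helper85.DT
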